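import Pool.Agent.K6.H9.RI.Stm

/-!
# Piece ABL: all abelian groups belong to `X` if the infinite cyclic group does
-/

set_option autoImplicit false

namespace Pool.Agent.K6.H9.RI

theorem t_ABL : S_ABL := by
  intro X hX hZ G _
  refine hX.join G fun K hK => ?_
  rw [eq_top_iff]
  intro g _
  have h1 : X ((zpowersHom G g).range : Subgroup G) :=
    hX.image _ _ (zpowersHom G g).rangeRestrict (zpowersHom G g).rangeRestrict_surjective hZ
  have h2 : g ∈ (zpowersHom G g).range := ⟨Multiplicative.ofAdd 1, by simp⟩
  exact hK _ inferInstance h1 h2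

end Pool.Agent.K6.H9.RI
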