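import Pool.Agent.K6.H9.RI.Stm

/-!
# Piece CRD (helper35): the cardinality of a locally nilpotent module
-/

set_option autoImplicit false

namespace Pool.Agent.K6.H9.RI

namespace CRD

theorem step (V : Type) [AddCommGroup V] [Module ℚ V] (S : V →ₗ[ℚ] V) (κ : Cardinal)
    (hκ : Cardinal.aleph0 ≤ κ) (h : Cardinal.mk (LinearMap.ker S) ≤ κ) (k : ℕ)
    (hk : Cardinal.mk {x : V | (S ^ k) x = 0} ≤ κ) :
    Cardinal.mk {x : V | (S ^ (k + 1)) x = 0} ≤ κ := by
  classical
  let s : V → V := fun y => if h : ∃ x, (S ^ k) x = y then h.choose else 0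
  have hs : ∀ x, (S ^ k) (s ((S ^ k) x)) = (S ^ k) x := by
    intro x
    have h1 : ∃ x', (S ^ k) x' = (S ^ k) x := ⟨x, rfl⟩
    simp only [s, dif_pos h1]
    exact h1.choose_spec
  let F : {x : V | (S ^ (k + 1)) x = 0} → LinearMap.ker S × {x : V | (S ^ k) x = 0} := fun x =>
    (⟨(S ^ k) x.1, by
      rw [LinearMap.mem_ker, ← Module.End.mul_apply, ← pow_succ']
      exact x.2⟩, ⟨x.1 - s ((S ^ k) x.1), by
      show (S ^ k) (x.1 - s ((S ^ k) x.1)) = 0
      rw [map_sub, hs, sub_self]⟩)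
  have hF : Function.Injective F := by
    intro x y hxy
    have h1 : (S ^ k) x.1 = (S ^ k) y.1 := congrArg (fun z => (z.1 : V)) hxy
    have h2 : x.1 - s ((S ^ k) x.1) = y.1 - s ((S ^ k) y.1) := congrArg (fun z => (z.2 : V)) hxy
    rw [h1] at h2
    exact Subtype.ext (sub_left_injective h2)
  refine (Cardinal.mk_le_of_injective hF).trans ?_
  rw [Cardinal.mk_prod, Cardinal.lift_id, Cardinal.lift_id]
  exact Cardinal.mul_le_of_le hκ h hk

end CRD

theorem t_CRD : S_CRD := by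
  intro V _ _ S hS κ hκ h
  have hall : ∀ k, Cardinal.mk {x : V | (S ^ k) x = 0} ≤ κ := by
    intro k
    induction k with
    | zero =>
      have e : {x : V | (S ^ 0) x = 0} = {0} := by
        ext x
        simp
      rw [e, Cardinal.mk_singleton]
      exact Cardinal.one_le_aleph0.trans hκ
    | succ k ih => exact CRD.step V S κ hκ h k ih
  have hU : (⋃ k : ℕ, {x : V | (S ^ k) x = 0}) = Set.univ := by
    rw [Set.eq_univ_iff_forall]
    intro x
    obtain ⟨k, hk⟩ := hS x
    exact Set.mem_iUnion.2 ⟨k, hk⟩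
  rw [← Cardinal.mk_univ, ← hU]
  refine (Cardinal.mk_iUnion_le _).trans ?_
  refine Cardinal.mul_le_of_le hκ ?_ (ciSup_le' hall)
  rw [Cardinal.mk_nat]
  exact hκ

end Pool.Agent.K6.H9.RI
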