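import Pool.Agent.K6.H9.RI.Stm

set_option autoImplicit false

namespace Pool.Agent.K6.H9.RI

open Finset

namespace CTR

variable {V : Type} [AddCommGroup V] [Module ℚ V] {S : V →ₗ[ℚ] V}
  (hl : ∀ x, ∃ k : ℕ, (S ^ k) x = 0)

theorem pow_zero_of_le {x : V} {K i : ℕ} (h : (S ^ K) x = 0) (hi : K ≤ i) : (S ^ i) x = 0 := by
  have : S ^ i = S ^ (i - K) * S ^ K := by
    rw [← pow_add]
    congr 1
    omega
  rw [this, Module.End.mul_apply, h, map_zero]

/-- the sum `∑ d i S ^ i` -/
noncomputable def Df (d : ℕ → ℚ) (x : V) : V :=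
  ∑ i ∈ range (Classical.choose (hl x)), d i • (S ^ i) x

theorem Df_eq (d : ℕ → ℚ) {x : V} {K : ℕ} (hK : (S ^ K) x = 0) :
    Df hl d x = ∑ i ∈ range K, d i • (S ^ i) x := by
  unfold Df
  have hk := Classical.choose_spec (hl x)
  set k := Classical.choose (hl x)
  have h1 : ∀ (a b : ℕ), a ≤ b → (S ^ a) x = 0 →
      ∑ i ∈ range a, d i • (S ^ i) x = ∑ i ∈ range b, d i • (S ^ i) x := by
    intro a b hab ha
    refine sum_subset (range_subset_range.2 hab) fun i _ hi => ?_
    rw [mem_range, not_lt] at hi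
    rw [pow_zero_of_le ha hi, smul_zero]
  rcases le_total k K with h | h
  · exact h1 k K h hk
  · exact (h1 K k h hK).symm

/-- the same as a linear map -/
noncomputable def D (d : ℕ → ℚ) : V →ₗ[ℚ] V where
  toFun := Df hl d
  map_add' x y := by
    obtain ⟨k, hk⟩ := hl x
    obtain ⟨m, hm⟩ := hl y
    have h1 := pow_zero_of_le hk (le_max_left k m)
    have h2 := pow_zero_of_le hm (le_max_right k m)
    have h3 : (S ^ (max k m)) (x + y) = 0 := by rw [map_add, h1, h2, add_zero]
    rw [Df_eq hl d h1, Df_eq hl d h2, Df_eq hl d h3, ← sum_add_distrib]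
    refine sum_congr rfl fun i _ => ?_
    rw [map_add, smul_add]
  map_smul' q x := by
    obtain ⟨k, hk⟩ := hl x
    have h3 : (S ^ k) (q • x) = 0 := by rw [map_smul, hk, smul_zero]
    rw [Df_eq hl d hk, Df_eq hl d h3, RingHom.id_apply, smul_sum]
    refine sum_congr rfl fun i _ => ?_
    rw [map_smul, smul_comm]

theorem D_eq (d : ℕ → ℚ) {x : V} {K : ℕ} (hK : (S ^ K) x = 0) :
    D hl d x = ∑ i ∈ range K, d i • (S ^ i) x := Df_eq hl d hK

theorem D_comm (d : ℕ → ℚ) (x : V) : D hl d (S x) = S (D hl d x) := by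
  obtain ⟨k, hk⟩ := hl x
  have h1 : (S ^ k) (S x) = 0 := by
    have : (S ^ k) (S x) = S ((S ^ k) x) := by
      rw [← Module.End.mul_apply, ← Module.End.mul_apply, ← pow_succ, ← pow_succ']
    rw [this, hk, map_zero]
  rw [D_eq hl d hk, D_eq hl d h1, map_sum]
  refine sum_congr rfl fun i _ => ?_
  rw [map_smul, ← Module.End.mul_apply, ← Module.End.mul_apply, ← pow_succ, ← pow_succ']

theorem surj_pow (hS : Function.Surjective S) (n : ℕ) (v : V) : ∃ x, (S ^ n) x = v := by
  induction n generalizing v with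
  | zero => exact ⟨v, rfl⟩
  | succ n ih =>
    obtain ⟨w, hw⟩ := hS v
    obtain ⟨x, hx⟩ := ih w
    refine ⟨x, ?_⟩
    rw [pow_succ', Module.End.mul_apply, hx, hw]

theorem denom (c : ℕ → ℚ) (n : ℕ) : ∃ N : ℕ, 0 < N ∧ ∀ i < n, ∃ z : ℤ, (N : ℚ) * c i = z := by
  refine ⟨∏ i ∈ range n, (c i).den, Finset.prod_pos fun i _ => (c i).den_pos, fun i hi => ?_⟩
  have h1 : (c i).den ∣ ∏ i ∈ range n, (c i).den := dvd_prod_of_mem _ (mem_range.2 hi)
  obtain ⟨k, hk⟩ := h1
  refine ⟨k * (c i).num, ?_⟩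
  rw [hk]
  push_cast
  have h2 : ((c i).den : ℚ) * c i = (c i).num := by
    rw [mul_comm]
    exact Rat.mul_den_eq_num (c i)
  linear_combination (k : ℚ) * h2

theorem pow_mem {L : AddSubgroup V} (hL : ∀ x ∈ L, S x ∈ L) (i : ℕ) {x : V} (hx : x ∈ L) :
    (S ^ i) x ∈ L := by
  induction i with
  | zero => exact hx
  | succ i ih =>
    rw [pow_succ', Module.End.mul_apply]
    exact hL _ ih

/-- one step of the construction -/
theorem step (hS : Function.Surjective S) (L : AddSubgroup V) (hL : ∀ x ∈ L, S x ∈ L)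
    (hN : ∀ x : V, ∃ N : ℕ, 0 < N ∧ N • x ∈ L) (v : V) (s : ℕ × (ℕ → ℚ)) :
    ∃ s' : ℕ × (ℕ → ℚ), s.1 < s'.1 ∧ (∀ i < s.1, s'.2 i = s.2 i) ∧
      ∀ d : ℕ → ℚ, (∀ i < s'.1, d i = s'.2 i) → ∃ a ∈ L, ∃ b ∈ L, v = a + D hl d b := by
  obtain ⟨n, c⟩ := s
  obtain ⟨N1, hN1, hint⟩ := denom c n
  obtain ⟨x, hx⟩ := surj_pow hS n v
  obtain ⟨N, hN0, hNx⟩ := hN x
  obtain ⟨m0, hm0⟩ := hl (N • x)
  set m := max m0 (n + 1) with hm
  have hmz : (S ^ m) (N • x) = 0 := pow_zero_of_le hm0 (le_max_left _ _)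
  refine ⟨(m, fun i => if i < n then c i else if i = n then 1 / ((N1 : ℚ) * N) else 0), ?_, ?_, ?_⟩
  · show n < m
    omega
  · intro i hi
    exact if_pos hi
  · intro d hd
    choose! z hz using hint
    have hb : (S ^ m) (N1 • (N • x)) = 0 := by rw [map_nsmul, hmz, smul_zero]
    refine ⟨-(∑ i ∈ range n, (z i) • (S ^ i) (N • x)), ?_, N1 • (N • x), L.nsmul_mem hNx N1, ?_⟩
    · exact L.neg_mem (L.sum_mem fun i _ => L.zsmul_mem (pow_mem hL i hNx) _)
    · rw [D_eq hl d hb]
      have h1 : ∑ i ∈ range m, d i • (S ^ i) (N1 • (N • x)) =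
          ∑ i ∈ range (n + 1), d i • (S ^ i) (N1 • (N • x)) := by
        symm
        refine sum_subset (range_subset_range.2 (by omega)) fun i hi hi2 => ?_
        rw [mem_range] at hi hi2
        have : d i = 0 := by
          rw [hd i hi]
          show (if i < n then c i else if i = n then 1 / ((N1 : ℚ) * N) else 0) = 0
          rw [if_neg (by omega), if_neg (by omega)]
        rw [this, zero_smul]
      rw [h1, sum_range_succ]
      have h2 : ∑ i ∈ range n, d i • (S ^ i) (N1 • (N • x)) =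
          ∑ i ∈ range n, (z i) • (S ^ i) (N • x) := by
        refine sum_congr rfl fun i hi => ?_
        rw [mem_range] at hi
        have e1 : d i = c i := by
          rw [hd i (by show i < m; omega)]
          exact if_pos hi
        rw [e1, map_nsmul, ← Nat.cast_smul_eq_nsmul ℚ N1, smul_smul, mul_comm, hz i hi,
          Int.cast_smul_eq_zsmul]
      have h3 : d n • (S ^ n) (N1 • (N • x)) = v := by
        have e1 : d n = 1 / ((N1 : ℚ) * N) := by
          rw [hd n (by show n < m; omega)]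
          show (if n < n then c n else if n = n then 1 / ((N1 : ℚ) * N) else 0) = _
          rw [if_neg (by omega), if_pos rfl]
        rw [e1, map_nsmul, map_nsmul, hx, ← Nat.cast_smul_eq_nsmul ℚ N1,
          ← Nat.cast_smul_eq_nsmul ℚ N, smul_smul, smul_smul]
        have : (1 / ((N1 : ℚ) * N)) * ((N1 : ℚ) * N) = 1 := by
          have : (0 : ℚ) < (N1 : ℚ) * N := by positivity
          field_simp
        rw [mul_assoc, this, one_smul]
      rw [h2, h3]
      abel

end CTR

open CTR in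
theorem t_CTR : S_CTR := by
  intro V _ _ _ S hl hS L hL hN
  have : Nonempty V := ⟨0⟩
  obtain ⟨e, he⟩ := exists_surjective_nat V
  choose f hf1 hf2 hf3 using fun (v : V) (s : ℕ × (ℕ → ℚ)) => step hl hS L hL hN v s
  let st : ℕ → ℕ × (ℕ → ℚ) := fun t => Nat.rec (0, fun _ => 0) (fun t s => f (e t) s) t
  have hst : ∀ t, st (t + 1) = f (e t) (st t) := fun _ => rfl
  have hge : ∀ t, t ≤ (st t).1 := by
    intro t
    induction t with
    | zero => exact Nat.zero_le _
    | succ t ih =>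
      have := hf1 (e t) (st t)
      rw [hst]
      omega
  have hmono : ∀ t k, (st t).1 ≤ (st (t + k)).1 := by
    intro t k
    induction k with
    | zero => exact le_refl _
    | succ k ih =>
      have := hf1 (e (t + k)) (st (t + k))
      rw [← add_assoc, hst]
      omega
  have hag : ∀ t k i, i < (st t).1 → (st (t + k)).2 i = (st t).2 i := by
    intro t k i hi
    induction k with
    | zero => rfl
    | succ k ih =>
      rw [← add_assoc, hst, hf2 _ _ i (lt_of_lt_of_le hi (hmono t k)), ih]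
  let d : ℕ → ℚ := fun i => (st (i + 1)).2 i
  have hd : ∀ t i, i < (st t).1 → d i = (st t).2 i := by
    intro t i hi
    show (st (i + 1)).2 i = (st t).2 i
    rcases le_total t (i + 1) with h | h
    · obtain ⟨k, hk⟩ := Nat.exists_eq_add_of_le h
      rw [hk]
      exact hag t k i hi
    · obtain ⟨k, hk⟩ := Nat.exists_eq_add_of_le h
      rw [hk]
      exact (hag (i + 1) k i (lt_of_lt_of_le (Nat.lt_succ_self i) (hge (i + 1)))).symm
  refine ⟨D hl d, fun x => D_comm hl d x, fun v => ?_⟩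
  obtain ⟨t, rfl⟩ := he v
  exact hf3 (e t) (st t) d (fun i hi => hd (t + 1) i hi)

end Pool.Agent.K6.H9.RI
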