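import Pool.Agent.K6.H9.RI.Stm

set_option autoImplicit false

namespace Pool.Agent.K6.H9.RI

theorem t_DIV : S_DIV := by
  intro V _ _ S hloc m₀ h
  apply le_antisymm
  · rintro x ⟨z, rfl⟩
    exact ⟨S z, by rw [pow_succ]; rfl⟩
  · have key : ∀ j : ℕ, ∀ x ∈ LinearMap.range (S ^ m₀), (S ^ j) x = 0 →
        x ∈ LinearMap.range (S ^ (m₀ + 1)) := by
      intro j
      induction j with
      | zero =>
        intro x _ hx
        have : x = 0 := by simpa using hx
        rw [this]
        exact zero_mem _
      | succ j ih =>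
        rintro x ⟨z, rfl⟩ hx
        have h1 : (S ^ j) ((S ^ m₀) z) ∈ LinearMap.ker S ⊓ LinearMap.range (S ^ (m₀ + j)) := by
          refine ⟨?_, ⟨z, ?_⟩⟩
          · rw [pow_succ'] at hx
            exact hx
          · rw [add_comm, pow_add]
            rfl
        rw [h (m₀ + j) (by omega), ← h (m₀ + j + 1) (by omega)] at h1
        obtain ⟨y, hy⟩ := h1.2
        have h2 : (S ^ j) ((S ^ m₀) z - (S ^ (m₀ + 1)) y) = 0 := by
          rw [map_sub, ← hy, sub_eq_zero]
          have : S ^ (m₀ + j + 1) = S ^ j * S ^ (m₀ + 1) := by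
            rw [← pow_add]
            congr 1
            omega
          rw [this]
          rfl
        have h3 : (S ^ m₀) z - (S ^ (m₀ + 1)) y ∈ LinearMap.range (S ^ m₀) := by
          refine ⟨z - S y, ?_⟩
          rw [map_sub, pow_succ]
          rfl
        have h4 := ih _ h3 h2
        have h5 := add_mem h4 (⟨y, rfl⟩ : (S ^ (m₀ + 1)) y ∈ LinearMap.range (S ^ (m₀ + 1)))
        rwa [sub_add_cancel] at h5
    intro x hx
    obtain ⟨k, hk⟩ := hloc x
    exact key k x hx hk

end Pool.Agent.K6.H9.RI
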