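import Pool.Agent.K6.H9.RI.Stm

/-! Piece EXT for MP_f46629_al (helper75). -/

set_option autoImplicit false

namespace Pool.Agent.K6.H9.RI

namespace EXT

variable {A B : Type} [AddCommGroup A] [AddCommGroup B]

/-- the automorphism in multiplicative notation -/
def au (σ : A ≃+ A) : MulAut (Multiplicative A) := AddEquiv.toMultiplicative σ

/-- the homomorphism in multiplicative notation -/
def mu (f : B →+ A) : Multiplicative B →* Multiplicative A := AddMonoidHom.toMultiplicative f

theorem act_eq (σ : A ≃+ A) (n : Multiplicative ℤ) : act σ n = au σ ^ n.toAdd := by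
  simp [act, au, zpowersHom_apply]

theorem mu_au (σ : A ≃+ A) (τ : B ≃+ B) (f : B →+ A) (hf : ∀ b, f (τ b) = σ (f b))
    (b : Multiplicative B) : mu f (au τ b) = au σ (mu f b) :=
  congrArg Multiplicative.ofAdd (hf b.toAdd)

theorem mu_inv (σ : A ≃+ A) (τ : B ≃+ B) (f : B →+ A) (hf : ∀ b, f (τ b) = σ (f b))
    (b : Multiplicative B) : mu f ((au τ)⁻¹ b) = (au σ)⁻¹ (mu f b) := by
  apply (au σ).injective
  rw [MulAut.apply_inv_self, ← mu_au σ τ f hf, MulAut.apply_inv_self]

theorem mu_zpow (σ : A ≃+ A) (τ : B ≃+ B) (f : B →+ A) (hf : ∀ b, f (τ b) = σ (f b)) (n : ℤ) :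
    ∀ b : Multiplicative B, mu f ((au τ ^ n) b) = (au σ ^ n) (mu f b) := by
  induction n using Int.induction_on with
  | zero => intro b; simp
  | succ n ih =>
    intro b
    rw [zpow_add_one, zpow_add_one, MulAut.mul_apply, MulAut.mul_apply, ih, mu_au σ τ f hf]
  | pred n ih =>
    intro b
    rw [zpow_sub_one, zpow_sub_one, MulAut.mul_apply, MulAut.mul_apply, ih, mu_inv σ τ f hf]

theorem diff_zpow (σ : A ≃+ A) (f : B →+ A) (hd : ∀ a, ∃ b, f b = σ a - a) (n : ℤ) :
    ∀ a : Multiplicative A, ∃ b, mu f b = (au σ ^ n) a * a⁻¹ := by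
  have hd' : ∀ a : Multiplicative A, ∃ b, mu f b = au σ a * a⁻¹ := by
    intro a
    obtain ⟨b, hb⟩ := hd a.toAdd
    refine ⟨Multiplicative.ofAdd b, ?_⟩
    rw [← div_eq_mul_inv]
    exact congrArg Multiplicative.ofAdd hb
  induction n using Int.induction_on with
  | zero => intro a; exact ⟨1, by simp⟩
  | succ n ih =>
    intro a
    obtain ⟨b1, h1⟩ := ih (au σ a)
    obtain ⟨b2, h2⟩ := hd' a
    refine ⟨b1 * b2, ?_⟩
    rw [map_mul, h1, h2, zpow_add_one, MulAut.mul_apply]
    group
  | pred n ih =>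
    intro a
    obtain ⟨b1, h1⟩ := ih ((au σ)⁻¹ a)
    obtain ⟨b2, h2⟩ := hd' ((au σ)⁻¹ a)
    rw [MulAut.apply_inv_self] at h2
    refine ⟨b1 * b2⁻¹, ?_⟩
    rw [map_mul, map_inv, h1, h2, zpow_sub_one, MulAut.mul_apply]
    group

/-- The map of the semidirect products. -/
def sdm (σ : A ≃+ A) (τ : B ≃+ B) (f : B →+ A) (hf : ∀ b, f (τ b) = σ (f b)) :
    SD B τ →* SD A σ :=
  SemidirectProduct.map (mu f) (MonoidHom.id _) (by
    intro n
    ext b
    show mu f (act τ n b) = act σ n (mu f b)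
    rw [act_eq, act_eq]
    exact mu_zpow σ τ f hf _ b)

theorem mem_sdm (σ : A ≃+ A) (τ : B ≃+ B) (f : B →+ A) (hf : ∀ b, f (τ b) = σ (f b))
    (x : SD A σ) : x ∈ (sdm σ τ f hf).range ↔ ∃ b, mu f b = x.left := by
  constructor
  · rintro ⟨y, rfl⟩
    exact ⟨y.left, rfl⟩
  · rintro ⟨b, hb⟩
    exact ⟨⟨b, x.right⟩, SemidirectProduct.ext hb rfl⟩

end EXT

open EXT in
/-- Piece EXT. -/
theorem t_EXT (h : S_ABL) : S_EXT := by
  intro X hX A B _ _ σ τ f hinj hf hd hXB
  have hZ : X (Multiplicative ℤ) :=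
    hX.image (SD B τ) (Multiplicative ℤ) SemidirectProduct.rightHom
      SemidirectProduct.rightHom_surjective hXB
  have hab : ∀ (G : Type) [CommGroup G], X G := h X hX hZ
  apply hX.join
  intro K hK
  -- the first normal subgroup
  have h1 : (SemidirectProduct.inl : Multiplicative A →* SD A σ).range ≤ K := by
    apply hK
    · rw [SemidirectProduct.range_inl_eq_ker_rightHom]
      infer_instance
    · exact hX.image (Multiplicative A) _
        (SemidirectProduct.inl : Multiplicative A →* SD A σ).rangeRestrict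
        (MonoidHom.rangeRestrict_surjective _) (hab _)
  -- the second one
  have h2 : (sdm σ τ f hf).range ≤ K := by
    apply hK
    · refine ⟨fun x hx g => ?_⟩
      rw [mem_sdm] at hx ⊢
      obtain ⟨b, hb⟩ := hx
      have e1 : (g * x * g⁻¹).left = g.left * act σ g.right x.left *
          (act σ (g.right * x.right) (act σ g.right⁻¹ g.left⁻¹)) := by
        rw [SemidirectProduct.mul_left, SemidirectProduct.mul_left, SemidirectProduct.inv_left,
          SemidirectProduct.mul_right]
      have e2 : act σ (g.right * x.right) (act σ g.right⁻¹ g.left⁻¹) =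
          (act σ x.right g.left)⁻¹ := by
        rw [← MulAut.mul_apply, ← map_mul, mul_comm g.right x.right, mul_assoc, mul_inv_cancel,
          mul_one, map_inv]
      rw [e1, e2, act_eq, act_eq]
      obtain ⟨b', hb'⟩ := diff_zpow σ f hd x.right.toAdd g.left
      refine ⟨((au τ ^ g.right.toAdd) b) * b'⁻¹, ?_⟩
      rw [map_mul, map_inv, hb', mu_zpow σ τ f hf, hb]
      rw [mul_inv, inv_inv]
      have e3 : ∀ p q r : Multiplicative A, p * (q * r) = r * p * q := by
        intro p q r
        rw [mul_comm r p, mul_assoc, mul_comm r q]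
      rw [e3]
    · exact hX.image (SD B τ) _ (sdm σ τ f hf).rangeRestrict
        (MonoidHom.rangeRestrict_surjective _) hXB
  rw [eq_top_iff]
  intro x _
  rw [← SemidirectProduct.inl_left_mul_inr_right x]
  refine K.mul_mem (h1 ⟨x.left, rfl⟩) (h2 ?_)
  rw [mem_sdm]
  exact ⟨1, by rw [map_one, SemidirectProduct.left_inr]⟩

end Pool.Agent.K6.H9.RI
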