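import Pool.Agent.K6.H9.RI.Stm

/-!
# Piece FRE: a lattice with independent generators maps onto every group with the same relations
-/

set_option autoImplicit false

namespace Pool.Agent.K6.H9.RI

namespace FRE

section

variable {V : Type} [AddCommGroup V] [Module ℚ V] (S' : V →ₗ[ℚ] V) {J : Type} (m : J → ℕ)
  (a : J → V)

/-- the generators -/
def v1 (q : J × ℕ) : V := (S' ^ q.2) (a q.1)

/-- relations between the generators are trivial -/
theorem coeff_zero (ha : ∀ j, (S' ^ (m j + 1)) (a j) = 0)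
    (hli : LinearIndependent ℚ (fun j => (S' ^ (m j)) (a j))) (p : (J × ℕ) →₀ ℤ)
    (hp : Finsupp.linearCombination ℤ (v1 S' a) p = 0) :
    ∀ j k, k ≤ m j → p (j, k) = 0 := by
  classical
  by_contra hcon
  push Not at hcon
  obtain ⟨j1, k1, hk1, hp1⟩ := hcon
  set T : Finset (J × ℕ) := p.support.filter (fun q => q.2 ≤ m q.1) with hT
  have hTne : T.Nonempty := ⟨(j1, k1), Finset.mem_filter.2 ⟨Finsupp.mem_support_iff.2 hp1, hk1⟩⟩
  obtain ⟨q0, hq0, hmax⟩ := T.exists_max_image (fun q => m q.1 - q.2) hTne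
  obtain ⟨hq0s, hq0m⟩ := Finset.mem_filter.1 hq0
  set d := m q0.1 - q0.2 with hd
  -- apply the power
  have hkill : ∀ j n, m j < n → (S' ^ n) (a j) = 0 := by
    intro j n hn
    obtain ⟨i, rfl⟩ := Nat.exists_eq_add_of_lt hn
    have h1 : m j + i + 1 = i + (m j + 1) := by ring
    rw [h1, pow_add, Module.End.mul_apply, ha, map_zero]
  have h1 : ∑ q ∈ p.support, p q • (S' ^ (q.2 + d)) (a q.1) = 0 := by
    have h2 := congrArg (fun x => (S' ^ d) x) hp
    simp only [map_zero] at h2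
    rw [Finsupp.linearCombination_apply, Finsupp.sum, map_sum] at h2
    rw [← h2]
    refine Finset.sum_congr rfl fun q _ => ?_
    rw [map_zsmul, v1, add_comm q.2 d, pow_add, Module.End.mul_apply]
  set F : Finset (J × ℕ) := p.support.filter (fun q => q.2 + d = m q.1) with hF
  have h3 : ∑ q ∈ F, ((p q : ℤ) : ℚ) • (S' ^ (m q.1)) (a q.1) = 0 := by
    rw [← h1, hF, Finset.sum_filter]
    refine Finset.sum_congr rfl fun q hq => ?_
    split_ifs with h4
    · rw [h4, Int.cast_smul_eq_zsmul]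
    · by_cases h5 : m q.1 < q.2 + d
      · rw [hkill _ _ h5, smul_zero]
      · exfalso
        have h6 : q.2 ≤ m q.1 := by omega
        have h7 := hmax q (Finset.mem_filter.2 ⟨hq, h6⟩)
        omega
  have hinj : Set.InjOn Prod.fst (F : Set (J × ℕ)) := by
    intro q hq q' hq' heq
    have h4 := (Finset.mem_filter.1 hq).2
    have h5 := (Finset.mem_filter.1 hq').2
    have h6 : q.1 = q'.1 := heq
    rw [← h6] at h5
    exact Prod.ext h6 (by omega)
  have h4 : ∑ j ∈ F.image Prod.fst, ((p (j, m j - d) : ℤ) : ℚ) • (S' ^ (m j)) (a j) = 0 := by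
    rw [Finset.sum_image hinj, ← h3]
    refine Finset.sum_congr rfl fun q hq => ?_
    have h5 := (Finset.mem_filter.1 hq).2
    have h6 : m q.1 - d = q.2 := by omega
    rw [h6]
  have h5 := linearIndependent_iff'.1 hli (F.image Prod.fst)
    (fun j => ((p (j, m j - d) : ℤ) : ℚ)) h4 q0.1
    (Finset.mem_image.2 ⟨q0, Finset.mem_filter.2 ⟨hq0s, by omega⟩, rfl⟩)
  have h6 : m q0.1 - d = q0.2 := by omega
  have h7 : (p q0 : ℤ) = 0 := by
    have h8 : ((p (q0.1, m q0.1 - d) : ℤ) : ℚ) = 0 := h5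
    rw [h6] at h8
    exact_mod_cast h8
  exact (Finsupp.mem_support_iff.1 hq0s) h7

end

end FRE

open FRE in
theorem t_FRE : S_FRE := by
  classical
  intro V _ _ S' J m a ha hli C _ S y hy hgen
  set w1 : J × ℕ → V := v1 S' a with hw1
  set w2 : J × ℕ → C := fun q => (⇑S)^[q.2] (y q.1) with hw2
  set Φ1 : ((J × ℕ) →₀ ℤ) →ₗ[ℤ] V := Finsupp.linearCombination ℤ w1 with hΦ1
  set Φ2 : ((J × ℕ) →₀ ℤ) →ₗ[ℤ] C := Finsupp.linearCombination ℤ w2 with hΦ2
  have hcl1 : AddSubgroup.closure {x | ∃ j k, x = (S' ^ k) (a j)} =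
      (LinearMap.range Φ1).toAddSubgroup := by
    rw [hΦ1, Finsupp.range_linearCombination]
    have h1 : {x | ∃ j k, x = (S' ^ k) (a j)} = Set.range w1 := by
      ext x
      constructor
      · rintro ⟨j, k, rfl⟩; exact ⟨(j, k), rfl⟩
      · rintro ⟨q, rfl⟩; exact ⟨q.1, q.2, rfl⟩
    rw [h1, Submodule.span_int_eq_addSubgroupClosure]
  have hcl2 : ∀ z : C, ∃ p, Φ2 p = z := by
    intro z
    have h1 := hgen z
    have h2 : {x | ∃ j k, x = (⇑S)^[k] (y j)} = Set.range w2 := by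
      ext x
      constructor
      · rintro ⟨j, k, rfl⟩; exact ⟨(j, k), rfl⟩
      · rintro ⟨q, rfl⟩; exact ⟨q.1, q.2, rfl⟩
    rw [h2, ← Submodule.span_int_eq_addSubgroupClosure, ← Finsupp.range_linearCombination] at h1
    exact h1
  have hkill : ∀ j n, m j < n → (⇑S)^[n] (y j) = 0 := by
    intro j n hn
    obtain ⟨i, rfl⟩ := Nat.exists_eq_add_of_lt hn
    have h1 : m j + i + 1 = i + (m j + 1) := by ring
    rw [h1, Function.iterate_add_apply, hy]
    exact iterate_map_zero S i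
  have hker : ∀ p, Φ1 p = 0 → Φ2 p = 0 := by
    intro p hp
    have h1 := coeff_zero S' m a ha hli p hp
    rw [hΦ2, Finsupp.linearCombination_apply, Finsupp.sum]
    refine Finset.sum_eq_zero fun q _ => ?_
    by_cases h2 : q.2 ≤ m q.1
    · have h3 : p q = 0 := h1 q.1 q.2 h2
      rw [h3, zero_smul]
    · have h3 : w2 q = 0 := hkill q.1 q.2 (by omega)
      rw [h3, smul_zero]
  have hwd : ∀ p p', Φ1 p = Φ1 p' → Φ2 p = Φ2 p' := by
    intro p p' h
    have h1 := hker (p - p') (by rw [map_sub, h, sub_self])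
    rw [map_sub] at h1
    exact sub_eq_zero.1 h1
  set sh : J × ℕ → J × ℕ := fun q => (q.1, q.2 + 1) with hsh
  have hS1 : ∀ p, S' (Φ1 p) = Φ1 (Finsupp.mapDomain sh p) := by
    intro p
    rw [hΦ1, Finsupp.linearCombination_mapDomain]
    have h1 := Finsupp.apply_linearCombination ℤ (S'.restrictScalars ℤ) w1 p
    have h2 : (⇑(S'.restrictScalars ℤ) ∘ w1) = w1 ∘ sh := by
      funext q
      show S' ((S' ^ q.2) (a q.1)) = (S' ^ (q.2 + 1)) (a q.1)
      rw [pow_succ', Module.End.mul_apply]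
    rw [h2] at h1
    exact h1
  have hS2 : ∀ p, S (Φ2 p) = Φ2 (Finsupp.mapDomain sh p) := by
    intro p
    rw [hΦ2, Finsupp.linearCombination_mapDomain]
    have h1 := Finsupp.apply_linearCombination ℤ S.toIntLinearMap w2 p
    have h2 : (⇑S.toIntLinearMap ∘ w2) = w2 ∘ sh := by
      funext q
      show S ((⇑S)^[q.2] (y q.1)) = (⇑S)^[q.2 + 1] (y q.1)
      rw [Function.iterate_succ_apply']
    rw [h2] at h1
    exact h1
  set L : AddSubgroup V := AddSubgroup.closure {x | ∃ j k, x = (S' ^ k) (a j)} with hL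
  have hmemL : ∀ x, x ∈ L ↔ ∃ p, Φ1 p = x := by
    intro x
    rw [hcl1]
    rfl
  have hLS : ∀ x ∈ L, S' x ∈ L := by
    intro x hx
    obtain ⟨p, rfl⟩ := (hmemL x).1 hx
    rw [hS1]
    exact (hmemL _).2 ⟨_, rfl⟩
  choose ch hch using fun x : L => (hmemL x.1).1 x.2
  let g : L →+ C := AddMonoidHom.mk' (fun x => Φ2 (ch x)) (by
    intro x x'
    rw [← map_add]
    apply hwd
    rw [hch, map_add, hch, hch]
    rfl)
  have hg : ∀ (x : L) p, Φ1 p = x.1 → g x = Φ2 p := by
    intro x p hp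
    exact hwd _ _ ((hch x).trans hp.symm)
  refine ⟨L, g, hLS, rfl, ?_, ?_⟩
  · intro z
    obtain ⟨p, rfl⟩ := hcl2 z
    exact ⟨⟨Φ1 p, (hmemL _).2 ⟨p, rfl⟩⟩, hg _ p rfl⟩
  · intro x
    rw [hg ⟨S' x, hLS x x.2⟩ (Finsupp.mapDomain sh (ch x)) (by rw [← hS1, hch]),
      hg x (ch x) (hch x), hS2]

end Pool.Agent.K6.H9.RI
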