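import Pool.Agent.K6.H9.RI.Stm

/-!
# Piece GRP: comparison of `A ⟨g⟩` with the semidirect product (helper70, for helper9)
-/

set_option autoImplicit false

namespace Pool.Agent.K6.H9.RI

namespace GRP

variable {G A : Type} [Group G] [AddCommGroup A]

theorem comp_pow (i : Multiplicative A →* G) (g : G) (s : MulAut (Multiplicative A))
    (h : ∀ a : Multiplicative A, i (s a) = g * i a * g⁻¹) (n : ℤ) :
    ∀ a : Multiplicative A, i ((s ^ n) a) = g ^ n * i a * (g ^ n)⁻¹ := by
  have hinv : ∀ a : Multiplicative A, i (s⁻¹ a) = g⁻¹ * i a * g := by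
    intro a
    have h1 := h (s⁻¹ a)
    rw [MulAut.apply_inv_self] at h1
    rw [h1]
    group
  induction n using Int.induction_on with
  | zero => intro a; simp
  | succ n ih =>
    intro a
    rw [zpow_add_one, zpow_add_one, MulAut.mul_apply, ih, h]
    group
  | pred n ih =>
    intro a
    rw [zpow_sub_one, zpow_sub_one, MulAut.mul_apply, ih, hinv]
    group

end GRP

theorem t_GRP (hP : S_PRD) : S_GRP := by
  intro X hX hZ G _ A _ i hi g σ hσ
  have h1 : ∀ a : Multiplicative A, i ((AddEquiv.toMultiplicative σ : MulAut (Multiplicative A)) a) =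
      g * i a * g⁻¹ := fun a => hσ a.toAdd
  have h2 : ∀ n : Multiplicative ℤ, i.comp ((act σ) n).toMonoidHom =
      (MulAut.conj ((zpowersHom G g) n)).toMonoidHom.comp i := by
    intro n
    refine MonoidHom.ext (fun a => ?_)
    change i ((act σ n) a) = (MulAut.conj ((zpowersHom G g) n)) (i a)
    rw [MulAut.conj_apply]
    exact GRP.comp_pow i g (AddEquiv.toMultiplicative σ : MulAut (Multiplicative A)) h1 n.toAdd a
  let Φ : SD A σ →* G := SemidirectProduct.lift i (zpowersHom G g) h2
  have hΦ : ∀ x : SD A σ, Φ x = i x.left * g ^ (x.right.toAdd) := by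
    intro x
    rfl
  have hr : Φ.range = i.range ⊔ Subgroup.zpowers g := by
    apply le_antisymm
    · rintro _ ⟨x, rfl⟩
      rw [hΦ]
      exact Subgroup.mul_mem_sup ⟨_, rfl⟩ (Subgroup.zpow_mem_zpowers g _)
    · refine sup_le ?_ ?_
      · rintro _ ⟨a, rfl⟩
        refine ⟨SemidirectProduct.inl a, ?_⟩
        rw [hΦ]
        simp
      · rw [Subgroup.zpowers_le]
        refine ⟨SemidirectProduct.inr (Multiplicative.ofAdd 1), ?_⟩
        rw [hΦ]
        simp
  constructor
  · intro h
    have h3 : X Φ.range := hX.image _ _ Φ.rangeRestrict Φ.rangeRestrict_surjective h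
    exact hr ▸ h3
  · intro h
    have h3 : X (Φ.range) := hr ▸ h
    have h4 : X (Φ.range × Multiplicative ℤ) := (hP X hX).1 _ _ h3 hZ
    let Ψ : SD A σ →* Φ.range × Multiplicative ℤ :=
      Φ.rangeRestrict.prod SemidirectProduct.rightHom
    have hΨ : Function.Injective Ψ := by
      intro x y hxy
      have e1 : Φ x = Φ y := congrArg (fun z : Φ.range × Multiplicative ℤ => (z.1 : G)) hxy
      have e2 : x.right = y.right := congrArg (fun z : Φ.range × Multiplicative ℤ => z.2) hxy
      rw [hΦ, hΦ, e2] at e1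
      have e3 : x.left = y.left := hi (mul_right_cancel e1)
      exact SemidirectProduct.ext e3 e2
    have h5 : X Ψ.range := hX.subgroup _ _ h4
    exact hX.image _ _ (MonoidHom.ofInjective hΨ).symm.toMonoidHom
      (MonoidHom.ofInjective hΨ).symm.surjective h5

end Pool.Agent.K6.H9.RI
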