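import Pool.Agent.K6.H9.RI.Stm

/-! # Piece LAT: the rational hull of a torsion-free abelian group (helper22) -/

set_option autoImplicit false

open scoped TensorProduct

namespace Pool.Agent.K6.H9.RI

theorem t_LAT : S_LAT := by
  intro A _ hA
  refine ⟨ℚ ⊗[ℤ] A, inferInstance, inferInstance,
    (TensorProduct.mk ℤ ℚ A 1).toAddMonoidHom, ?_, ?_, ?_⟩
  · have hL : IsLocalizedModule (nonZeroDivisors ℤ) (TensorProduct.mk ℤ ℚ A 1) :=
      (isLocalizedModule_iff_isBaseChange (nonZeroDivisors ℤ) ℚ _).mpr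
        (TensorProduct.isBaseChange ℤ A ℚ)
    rw [injective_iff_map_eq_zero]
    intro a ha
    have ha' : TensorProduct.mk ℤ ℚ A 1 a = TensorProduct.mk ℤ ℚ A 1 0 := by
      rw [map_zero]; exact ha
    obtain ⟨c, hc⟩ := (IsLocalizedModule.eq_iff_exists (nonZeroDivisors ℤ)
      (TensorProduct.mk ℤ ℚ A 1)).mp ha'
    have hc0 : (c : ℤ) ≠ 0 := nonZeroDivisors.coe_ne_zero c
    have hc' : (c : ℤ) • a = 0 := by
      have := hc
      rw [smul_zero] at this
      exact this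
    apply hA a (c : ℤ).natAbs (Int.natAbs_pos.mpr hc0)
    rcases Int.natAbs_eq (c : ℤ) with h | h
    · rw [h] at hc'
      rwa [natCast_zsmul] at hc'
    · rw [h, neg_smul, neg_eq_zero] at hc'
      rwa [natCast_zsmul] at hc'
  · intro x
    have hL : IsLocalizedModule (nonZeroDivisors ℤ) (TensorProduct.mk ℤ ℚ A 1) :=
      (isLocalizedModule_iff_isBaseChange (nonZeroDivisors ℤ) ℚ _).mpr
        (TensorProduct.isBaseChange ℤ A ℚ)
    obtain ⟨⟨a, s⟩, h⟩ := IsLocalizedModule.surj (nonZeroDivisors ℤ) (TensorProduct.mk ℤ ℚ A 1) x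
    have hs0 : (s : ℤ) ≠ 0 := nonZeroDivisors.coe_ne_zero s
    have h' : (s : ℤ) • x = TensorProduct.mk ℤ ℚ A 1 a := h
    rcases Int.natAbs_eq (s : ℤ) with hs | hs
    · refine ⟨(s : ℤ).natAbs, Int.natAbs_pos.mpr hs0, a, ?_⟩
      rw [hs, natCast_zsmul] at h'
      exact h'.symm
    · refine ⟨(s : ℤ).natAbs, Int.natAbs_pos.mpr hs0, -a, ?_⟩
      rw [hs, neg_smul, natCast_zsmul] at h'
      rw [map_neg]
      change -(TensorProduct.mk ℤ ℚ A 1 a) = _
      rw [← h', neg_neg]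
  · intro f
    refine ⟨f.toIntLinearMap.baseChange ℚ, fun a => ?_⟩
    change (f.toIntLinearMap.baseChange ℚ) ((1 : ℚ) ⊗ₜ[ℤ] a) = (1 : ℚ) ⊗ₜ[ℤ] (f a)
    rw [LinearMap.baseChange_tmul]
    rfl

end Pool.Agent.K6.H9.RI
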