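import Pool.Agent.K6.H9.RI.Stm

/-! # Piece MAPS (helper78): maps of semidirect products with the infinite cyclic group -/

set_option autoImplicit false

namespace Pool.Agent.K6.H9.RI

namespace MAPS

variable {A B : Type} [AddCommGroup A] [AddCommGroup B] {σ : A ≃+ A} {τ : B ≃+ B}

/-- the multiplicative version of `f` -/
def mf (f : A →+ B) : Multiplicative A →* Multiplicative B := AddMonoidHom.toMultiplicative f

lemma equiv_zpow (f : A →+ B) (h : ∀ a, f (σ a) = τ (f a)) (k : ℤ) :
    ∀ x : Multiplicative A,
      mf f (((AddEquiv.toMultiplicative σ : MulAut (Multiplicative A)) ^ k) x) =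
        ((AddEquiv.toMultiplicative τ : MulAut (Multiplicative B)) ^ k) (mf f x) := by
  have h1 : ∀ x : Multiplicative A, mf f ((AddEquiv.toMultiplicative σ : MulAut (Multiplicative A)) x) =
      (AddEquiv.toMultiplicative τ : MulAut (Multiplicative B)) (mf f x) := fun x => h x.toAdd
  have h2 : ∀ x : Multiplicative A,
      mf f ((AddEquiv.toMultiplicative σ : MulAut (Multiplicative A))⁻¹ x) =
        (AddEquiv.toMultiplicative τ : MulAut (Multiplicative B))⁻¹ (mf f x) := by
    intro x
    apply (AddEquiv.toMultiplicative τ : MulAut (Multiplicative B)).injective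
    rw [← h1, MulAut.apply_inv_self, MulAut.apply_inv_self]
  induction k using Int.induction_on with
  | zero =>
    intro x
    rw [zpow_zero, zpow_zero]
    rfl
  | succ k ih =>
    intro x
    rw [zpow_add_one, zpow_add_one, MulAut.mul_apply, MulAut.mul_apply, ih, h1]
  | pred k ih =>
    intro x
    rw [zpow_sub_one, zpow_sub_one, MulAut.mul_apply, MulAut.mul_apply, ih, h2]

/-- the homomorphism of the semidirect products -/
def sm (f : A →+ B) (h : ∀ a, f (σ a) = τ (f a)) : SD A σ →* SD B τ :=
  SemidirectProduct.map (mf f) (MonoidHom.id _) fun g => by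
    ext x
    exact equiv_zpow f h (Multiplicative.toAdd g) x

lemma sm_inj (f : A →+ B) (h : ∀ a, f (σ a) = τ (f a)) (hf : Function.Injective f) :
    Function.Injective (sm f h) := by
  intro x y hxy
  have h1 := congrArg SemidirectProduct.left hxy
  have h2 := congrArg SemidirectProduct.right hxy
  refine SemidirectProduct.ext ?_ h2
  exact hf h1

lemma sm_surj (f : A →+ B) (h : ∀ a, f (σ a) = τ (f a)) (hf : Function.Surjective f) :
    Function.Surjective (sm f h) := by
  rintro ⟨b, n⟩
  obtain ⟨a, ha⟩ := hf b.toAdd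
  refine ⟨⟨Multiplicative.ofAdd a, n⟩, SemidirectProduct.ext ?_ rfl⟩
  exact ha

end MAPS

open MAPS

/-- **Piece MAPS.** -/
theorem t_INJ : S_INJ := by
  intro X hX A B _ _ σ τ f hf h hB
  have h1 := hX.subgroup _ (sm f h).range hB
  exact hX.image _ _ (MonoidHom.ofInjective (sm_inj f h hf)).symm.toMonoidHom
    (MonoidHom.ofInjective (sm_inj f h hf)).symm.surjective h1

/-- **Piece MAPS.** -/
theorem t_SUR : S_SUR := by
  intro X hX A B _ _ σ τ f hf h hA
  exact hX.image _ _ (sm f h) (sm_surj f h hf) hA

end Pool.Agent.K6.H9.RI
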