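import Pool.Agent.K6.H9.RI.Stm

/-! # Piece PRD (helper53): products -/

set_option autoImplicit false

namespace Pool.Agent.K6.H9.RI

namespace PRD

theorem zp {N N₁ : Type} [Group N] [Group N₁] (P : MulAut N) (Q : MulAut N₁) (f : N →* N₁)
    (h : ∀ x, f (P x) = Q (f x)) (n : ℤ) (x : N) : f ((P ^ n) x) = (Q ^ n) (f x) := by
  have hn : ∀ (k : ℕ) (x : N), f ((P ^ k) x) = (Q ^ k) (f x) := by
    intro k
    induction k with
    | zero => intro x; simp
    | succ k ih =>
      intro x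
      rw [pow_succ, pow_succ, MulAut.mul_apply, MulAut.mul_apply, ih, h]
  obtain ⟨k, rfl | rfl⟩ := n.eq_nat_or_neg
  · rw [zpow_natCast, zpow_natCast, hn]
  · rw [zpow_neg, zpow_neg, zpow_natCast, zpow_natCast]
    apply (Q ^ k).injective
    rw [← hn, MulAut.apply_inv_self, MulAut.apply_inv_self]

/-- the map of the semidirect products -/
def mp {A B : Type} [AddCommGroup A] [AddCommGroup B] (σ : A ≃+ A) (τ : B ≃+ B) (f : A →+ B)
    (h : ∀ a, f (σ a) = τ (f a)) : SD A σ →* SD B τ :=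
  SemidirectProduct.map (AddMonoidHom.toMultiplicative f) (MonoidHom.id _) (by
    intro g
    ext x
    exact zp (AddEquiv.toMultiplicative σ) (AddEquiv.toMultiplicative τ)
      (AddMonoidHom.toMultiplicative f) (fun x => h x) g x)

theorem prod (X : ∀ (G : Type) [Group G], Prop) (hX : IsHereditaryRadical X)
    (G H : Type) [Group G] [Group H] (hG : X G) (hH : X H) : X (G × H) := by
  refine hX.join (G × H) fun K hK => ?_
  have h1 : (MonoidHom.inl G H).range ≤ K := by
    refine hK _ ?_ (hX.image G _ (MonoidHom.inl G H).rangeRestrict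
      (MonoidHom.rangeRestrict_surjective _) hG)
    constructor
    rintro _ ⟨x, rfl⟩ ⟨a, b⟩
    exact ⟨a * x * a⁻¹, by simp⟩
  have h2 : (MonoidHom.inr G H).range ≤ K := by
    refine hK _ ?_ (hX.image H _ (MonoidHom.inr G H).rangeRestrict
      (MonoidHom.rangeRestrict_surjective _) hH)
    constructor
    rintro _ ⟨x, rfl⟩ ⟨a, b⟩
    exact ⟨b * x * b⁻¹, by simp⟩
  rw [eq_top_iff]
  rintro ⟨a, b⟩ -
  have h3 : ((a, b) : G × H) = MonoidHom.inl G H a * MonoidHom.inr G H b := by simp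
  rw [h3]
  exact K.mul_mem (h1 ⟨a, rfl⟩) (h2 ⟨b, rfl⟩)

end PRD

theorem t_PRD : S_PRD := by
  intro X hX
  refine ⟨fun G H _ _ hG hH => PRD.prod X hX G H hG hH, ?_⟩
  intro A B _ _ σ τ hA hB
  let ρ : (A × B) ≃+ (A × B) := AddEquiv.prodCongr σ τ
  let f1 : SD (A × B) ρ →* SD A σ := PRD.mp ρ σ (AddMonoidHom.fst A B) (fun _ => rfl)
  let f2 : SD (A × B) ρ →* SD B τ := PRD.mp ρ τ (AddMonoidHom.snd A B) (fun _ => rfl)
  let F : SD (A × B) ρ →* SD A σ × SD B τ := f1.prod f2
  have hF : Function.Injective F := by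
    rintro ⟨x, m⟩ ⟨y, n⟩ h
    have h1 : f1 ⟨x, m⟩ = f1 ⟨y, n⟩ := congrArg Prod.fst h
    have h2 : f2 ⟨x, m⟩ = f2 ⟨y, n⟩ := congrArg Prod.snd h
    have e1 := congrArg SemidirectProduct.left h1
    have e2 := congrArg SemidirectProduct.left h2
    have e3 := congrArg SemidirectProduct.right h1
    have e4 : (Multiplicative.toAdd x).1 = (Multiplicative.toAdd y).1 := e1
    have e5 : (Multiplicative.toAdd x).2 = (Multiplicative.toAdd y).2 := e2
    have e6 : m = n := e3
    have e7 : x = y := Multiplicative.toAdd.injective (Prod.ext e4 e5)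
    rw [e6, e7]
  have h1 : X (SD A σ × SD B τ) := PRD.prod X hX _ _ hA hB
  have h2 : X F.range := hX.subgroup _ F.range h1
  exact hX.image _ _ (MonoidHom.ofInjective hF).symm.toMonoidHom
    (MonoidHom.ofInjective hF).symm.surjective h2

end Pool.Agent.K6.H9.RI
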