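import Pool.Agent.K6.H9.RI.Stm

/-!
# Piece RAD: the radical belongs to `X`, and the radical of a subnormal subgroup
-/

set_option autoImplicit false

namespace Pool.Agent.K6.H9.RI

namespace RAD

variable {X : ∀ (G : Type) [Group G], Prop}

/-- `X` is closed under groups which embed. -/
theorem inj (hX : IsHereditaryRadical X) {G H : Type} [Group G] [Group H] (f : G →* H)
    (hf : Function.Injective f) (h : X H) : X G :=
  hX.image f.range G (MonoidHom.ofInjective hf).symm.toMonoidHom
    (MonoidHom.ofInjective hf).symm.surjective (hX.subgroup H f.range h)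

/-- The radical is invariant under isomorphisms. -/
theorem rad_map (hX : IsHereditaryRadical X) {G H : Type} [Group G] [Group H] (e : G ≃* H) {x : G}
    (hx : x ∈ radical X G) : e x ∈ radical X H := by
  have h : radical X G ≤ (radical X H).comap e.toMonoidHom := by
    refine sSup_le fun N hN => ?_
    obtain ⟨hn, hXN⟩ := hN
    rw [← Subgroup.map_le_iff_le_comap]
    refine le_sSup ⟨hn.map _ e.surjective, ?_⟩
    exact inj hX (N.equivMapOfInjective e.toMonoidHom e.injective).symm.toMonoidHom
      (MulEquiv.injective _) hXN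
  exact h hx

theorem rad_normal (hX : IsHereditaryRadical X) (G : Type) [Group G] : (radical X G).Normal :=
  ⟨fun _ hx g => rad_map hX (MulAut.conj g) hx⟩

theorem rad_mem (hX : IsHereditaryRadical X) (G : Type) [Group G] : X (radical X G) := by
  refine hX.join _ fun K hK => ?_
  rw [eq_top_iff]
  have h : radical X G ≤ K.map (radical X G).subtype := by
    refine sSup_le fun N hN => ?_
    obtain ⟨hn, hXN⟩ := hN
    have hle : N ≤ radical X G := le_sSup ⟨hn, hXN⟩
    have h1 : N.subgroupOf (radical X G) ≤ K := by
      refine hK _ inferInstance ?_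
      exact inj hX (Subgroup.subgroupOfEquivOfLe hle).toMonoidHom (MulEquiv.injective _) hXN
    intro x hx
    exact ⟨⟨x, hle hx⟩, h1 (Subgroup.mem_subgroupOf.2 hx), rfl⟩
  rintro ⟨x, hx⟩ -
  obtain ⟨y, hy, hyx⟩ := h hx
  have h2 : y = ⟨x, hx⟩ := Subtype.ext hyx
  rw [← h2]
  exact hy

theorem rad_le_normal (hX : IsHereditaryRadical X) {G : Type} [Group G] (N : Subgroup G)
    [N.Normal] {x : N} (hx : x ∈ radical X N) : (x : G) ∈ radical X G := by
  have h1 : ((radical X N).map N.subtype).Normal := ⟨by
    rintro _ ⟨y, hy, rfl⟩ g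
    exact ⟨MulAut.conjNormal g y, rad_map hX (MulAut.conjNormal g) hy,
      MulAut.conjNormal_apply g y⟩⟩
  have h2 : X ((radical X N).map N.subtype) :=
    inj hX ((radical X N).equivMapOfInjective N.subtype N.subtype_injective).symm.toMonoidHom
      (MulEquiv.injective _) (rad_mem hX N)
  have h3 : (radical X N).map N.subtype ≤ radical X G := le_sSup ⟨h1, h2⟩
  exact h3 ⟨x, hx, rfl⟩

theorem rad_sub (hX : IsHereditaryRadical X) {G : Type} [Group G] (H : Subgroup G)
    (hH : H.IsSubnormal) : ∀ h : H, h ∈ radical X H → (h : G) ∈ radical X G := by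
  induction hH with
  | top =>
    intro h hh
    exact rad_map hX Subgroup.topEquiv hh
  | step H K h_le hS hN ih =>
    intro h hh
    have h1 := rad_map hX (Subgroup.subgroupOfEquivOfLe h_le).symm hh
    exact ih _ (rad_le_normal hX (H.subgroupOf K) h1)

end RAD

open RAD in
theorem t_RAD : S_RAD := by
  intro X hX G _
  refine ⟨rad_normal hX G, rad_mem hX G, fun H hH h => ⟨rad_sub hX H hH h, fun hh => ?_⟩⟩
  have hn := rad_normal hX G
  have hXR : X ((radical X G).subgroupOf H) := by
    refine inj hX ((H.subtype.comp ((radical X G).subgroupOf H).subtype).codRestrict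
      (radical X G) fun x => x.2) ?_ (rad_mem hX G)
    intro a b hab
    exact Subtype.ext (Subtype.ext (congrArg (fun z : radical X G => (z : G)) hab))
  have h1 : (radical X G).subgroupOf H ≤ radical X H := le_sSup ⟨inferInstance, hXR⟩
  exact h1 (Subgroup.mem_subgroupOf.2 hh)

end Pool.Agent.K6.H9.RI
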