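import Pool.Agent.K6.H9.RI.Stm

set_option autoImplicit false

/-! # Piece REL (by helper33) -/

namespace Pool.Agent.K6.H9.RI

namespace REL

variable {V : Type} [AddCommGroup V] [Module ℚ V] (T : V →ₗ[ℚ] V)

/-- `Φ = ∑_{i<n} (1+T)^i` -/
noncomputable def Phi (n : ℕ) : V →ₗ[ℚ] V := ∑ i ∈ Finset.range n, (1 + T) ^ i

theorem mul_Phi (n : ℕ) : (1 + T) ^ n - 1 = T * Phi T n := by
  have h := (Commute.one_right (1 + T)).mul_geom_sum₂ n
  have h2 := mul_geom_sum (1 + T) n
  rw [Phi, ← h2]
  congr 1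
  abel

theorem comm_Phi (n : ℕ) : Commute T (Phi T n) := by
  refine Commute.sum_right _ _ _ fun i _ => Commute.pow_right ?_ _
  exact (Commute.one_right T).add_right (Commute.refl T)

/-- `Ψ` with `Φ = n + T Ψ` -/
theorem exists_Psi (n : ℕ) : ∃ P : V →ₗ[ℚ] V, Commute T P ∧ Phi T n = (n : V →ₗ[ℚ] V) + T * P := by
  induction n with
  | zero => exact ⟨0, Commute.zero_right _, by simp [Phi]⟩
  | succ n ih =>
    obtain ⟨P, h1, h2⟩ := ih
    refine ⟨P + Phi T n, h1.add_right (comm_Phi T n), ?_⟩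
    have h3 : Phi T (n + 1) = Phi T n + (1 + T) ^ n := by rw [Phi, Finset.sum_range_succ, ← Phi]
    have h4 : (1 + T) ^ n = 1 + T * Phi T n := by rw [← mul_Phi]; abel
    rw [h3, h4, h2]
    push_cast
    rw [mul_add, mul_add, mul_add]
    abel

theorem inj (hT : ∀ x, ∃ k : ℕ, (T ^ k) x = 0) (n : ℕ) (hn : 0 < n) (x : V) (hx : Phi T n x = 0) :
    x = 0 := by
  obtain ⟨P, hP, hPsi⟩ := exists_Psi T n
  obtain ⟨k, hk⟩ := hT x
  -- `T ^ j x = 0` for all `j` by downward induction
  have h1 : (n : ℚ) • x = - T (P x) := by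
    have h := hx
    rw [hPsi] at h
    simp only [LinearMap.add_apply, Module.End.mul_apply, Module.End.natCast_apply] at h
    rw [← Nat.cast_smul_eq_nsmul ℚ] at h
    exact eq_neg_of_add_eq_zero_left h
  have h2 : ∀ j : ℕ, (T ^ (k - j)) x = 0 := by
    intro j
    induction j with
    | zero => simpa using hk
    | succ j ih =>
      by_cases hj : j < k
      · have h3 : (T ^ (k - (j + 1))) ((n : ℚ) • x) = - (P ((T ^ (k - j)) x)) := by
          rw [h1, map_neg]
          congr 1
          have h4 : k - j = (k - (j + 1)) + 1 := by omega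
          rw [h4, pow_succ]
          have h5 : Commute (T ^ (k - (j + 1)) * T) P := by
            rw [← pow_succ]; exact hP.pow_left _
          have h6 := congrArg (fun φ : V →ₗ[ℚ] V => φ x) h5.eq
          simp only [Module.End.mul_apply] at h6 ⊢
          exact h6
        rw [ih, map_zero, neg_zero, map_smul] at h3
        exact (smul_eq_zero.1 h3).resolve_left (by positivity)
      · have h4 : k - (j + 1) = k - j := by omega
        rw [h4, ih]
  have h3 := h2 k
  rwa [Nat.sub_self, pow_zero, Module.End.one_apply] at h3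

theorem surj (hT : ∀ x, ∃ k : ℕ, (T ^ k) x = 0) (n : ℕ) (hn : 0 < n) (x : V) :
    ∃ y, Phi T n y = x := by
  obtain ⟨P, hP, hPsi⟩ := exists_Psi T n
  have key : ∀ k : ℕ, ∀ x : V, (T ^ k) x = 0 → ∃ y, Phi T n y = x := by
    intro k
    induction k with
    | zero =>
      intro x hx
      rw [pow_zero, Module.End.one_apply] at hx
      exact ⟨0, by rw [hx, map_zero]⟩
    | succ k ih =>
      intro x hx
      obtain ⟨z, hz⟩ := ih (T (P x)) (by
        have h5 : Commute (T ^ (k + 1)) P := hP.pow_left _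
        have h6 := congrArg (fun φ : V →ₗ[ℚ] V => φ x) h5.eq
        simp only [Module.End.mul_apply] at h6
        have h7 : (T ^ k) (T (P x)) = (T ^ (k + 1)) (P x) := by
          rw [pow_succ, Module.End.mul_apply]
        rw [h7, h6, hx, map_zero])
      have hn0 : (n : ℚ) ≠ 0 := by positivity
      refine ⟨(n : ℚ)⁻¹ • (x - z), ?_⟩
      rw [map_smul, map_sub, hz, hPsi]
      simp only [LinearMap.add_apply, Module.End.mul_apply, Module.End.natCast_apply]
      rw [← Nat.cast_smul_eq_nsmul ℚ, add_sub_cancel_right, smul_smul, inv_mul_cancel₀ hn0, one_smul]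
  obtain ⟨k, hk⟩ := hT x
  exact key k x hk

theorem bij (hT : ∀ x, ∃ k : ℕ, (T ^ k) x = 0) (n : ℕ) (hn : 0 < n) (m : ℕ) :
    Function.Bijective (Phi T n ^ m) := by
  have h : Function.Bijective (Phi T n) := ⟨(injective_iff_map_eq_zero _).2 (inj T hT n hn),
    surj T hT n hn⟩
  induction m with
  | zero => exact Function.bijective_id
  | succ m ih =>
    rw [pow_succ]
    exact ih.comp h

end REL

open REL in
theorem t_REL : S_REL := by
  intro V _ _ T hT n hn
  have hpow : ∀ m, (((1 + T) ^ n - 1) ^ m) = T ^ m * Phi T n ^ m := by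
    intro m
    rw [mul_Phi, (comm_Phi T n).mul_pow]
  have hpow' : ∀ m, (((1 + T) ^ n - 1) ^ m) = Phi T n ^ m * T ^ m := by
    intro m
    rw [hpow, ((comm_Phi T n).pow_pow m m).eq]
  refine ⟨fun x => ?_, ?_, fun m => ?_⟩
  · obtain ⟨k, hk⟩ := hT x
    refine ⟨k, ?_⟩
    rw [hpow', Module.End.mul_apply, hk, map_zero]
  · have h1 := hpow' 1
    rw [pow_one, pow_one, pow_one] at h1
    ext x
    rw [LinearMap.mem_ker, LinearMap.mem_ker, h1, Module.End.mul_apply]
    constructor
    · exact inj T hT n hn _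
    · intro h; rw [h, map_zero]
  · ext x
    rw [hpow]
    constructor
    · rintro ⟨y, rfl⟩
      exact ⟨(Phi T n ^ m) y, rfl⟩
    · rintro ⟨y, rfl⟩
      obtain ⟨z, rfl⟩ := (bij T hT n hn m).2 y
      exact ⟨z, rfl⟩

end Pool.Agent.K6.H9.RI
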