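import Pool.Agent.K6.H9.RI.Stm

set_option autoImplicit false

namespace Pool.Agent.K6.H9.RI

theorem t_SEL : S_SEL := by
  intro V _ _ J _ W hW
  obtain ⟨_, _, hr⟩ := Cardinal.exists_ord_eq_type_lt J
  have hcard : ∀ j : J, Cardinal.mk (Set.Iio j) < Cardinal.mk J := fun j =>
    Cardinal.mk_Iio_lt j hr
  -- the choice
  have hex : ∀ (j : J) (f : ∀ i, i < j → V), ∃ b ∈ W j,
      b ∉ Submodule.span ℚ {x | ∃ (i : J) (h : i < j), x = f i h} := by
    intro j f
    by_contra hcon
    push Not at hcon
    have h1 : W j ≤ Submodule.span ℚ {x | ∃ (i : J) (h : i < j), x = f i h} := hcon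
    have h2 : Module.rank ℚ (W j) ≤ Module.rank ℚ
        (Submodule.span ℚ {x | ∃ (i : J) (h : i < j), x = f i h}) := Submodule.rank_mono h1
    have h3 := rank_span_le (R := ℚ) {x | ∃ (i : J) (h : i < j), x = f i h}
    have h4 : Cardinal.mk {x | ∃ (i : J) (h : i < j), x = f i h} ≤ Cardinal.mk (Set.Iio j) := by
      refine Cardinal.mk_le_of_surjective (f := fun i : Set.Iio j =>
        (⟨f i.1 i.2, i.1, i.2, rfl⟩ : {x | ∃ (i : J) (h : i < j), x = f i h})) ?_
      rintro ⟨x, i, h, rfl⟩
      exact ⟨⟨i, h⟩, rfl⟩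
    exact absurd (((hW j).trans h2).trans (h3.trans h4)) (not_le.2 (hcard j))
  choose g hg1 hg2 using hex
  have hwf : WellFounded (fun i j : J => i < j) := wellFounded_lt
  let b : J → V := hwf.fix g
  have hb : ∀ j, b j = g j (fun i _ => b i) := fun j => hwf.fix_eq g j
  refine ⟨b, fun j => ?_, ?_⟩
  · rw [hb]
    exact hg1 _ _
  · have hnot : ∀ j, b j ∉ Submodule.span ℚ (b '' {i | i < j}) := by
      intro j h
      have e : {x | ∃ (i : J) (_ : i < j), x = b i} = b '' {i | i < j} := by
        ext x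
        constructor
        · rintro ⟨i, hi, rfl⟩
          exact ⟨i, hi, rfl⟩
        · rintro ⟨i, hi, rfl⟩
          exact ⟨i, hi, rfl⟩
      rw [← e, hb] at h
      exact hg2 j (fun i _ => b i) h
    classical
    rw [linearIndependent_iff_finset_linearIndependent]
    intro s
    show LinearIndepOn ℚ b (s : Set J)
    induction s using Finset.induction_on_max with
    | empty => simp
    | insert a s hmax ih =>
      rw [Finset.coe_insert]
      refine ih.insert ?_
      intro h
      apply hnot a
      refine Submodule.span_mono ?_ h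
      rintro _ ⟨i, hi, rfl⟩
      exact ⟨i, hmax i hi, rfl⟩

end Pool.Agent.K6.H9.RI
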