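import Pool.Agent.K6.H9.RI.Stm

/-!
# Piece THT: an embedding intertwining two locally nilpotent endomorphisms

With `π` a projection onto the common kernel and `R` a right inverse of `S'`, the map
`θ x = ∑ₖ R ^ k (π (S ^ k x))` does it.
-/

set_option autoImplicit false

namespace Pool.Agent.K6.H9.RI

namespace THT

/-- a locally finite sum of linear maps -/
theorem exists_sum (V : Type) [AddCommGroup V] [Module ℚ V] (g : ℕ → V →ₗ[ℚ] V)
    (hg : ∀ x, ∃ N : ℕ, ∀ k, N ≤ k → g k x = 0) :
    ∃ θ : V →ₗ[ℚ] V, ∀ x M, (∀ k, M ≤ k → g k x = 0) → θ x = ∑ k ∈ Finset.range M, g k x := by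
  choose N hN using hg
  have key : ∀ x M M', (∀ k, M ≤ k → g k x = 0) → (∀ k, M' ≤ k → g k x = 0) →
      ∑ k ∈ Finset.range M, g k x = ∑ k ∈ Finset.range M', g k x := by
    intro x M M' h h'
    have h1 : ∀ M : ℕ, (∀ k, M ≤ k → g k x = 0) → ∀ n, M ≤ n →
        ∑ k ∈ Finset.range M, g k x = ∑ k ∈ Finset.range n, g k x := by
      intro M h n hn
      refine Finset.sum_subset (Finset.range_mono hn) fun k _ hk => ?_
      exact h k (by simpa using hk)
    rw [h1 M h (max M M') (le_max_left _ _), h1 M' h' (max M M') (le_max_right _ _)]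
  refine ⟨{ toFun := fun x => ∑ k ∈ Finset.range (N x), g k x
            map_add' := ?_
            map_smul' := ?_ }, ?_⟩
  · intro x y
    set M := max (N x) (N y) with hM
    have hx : ∀ k, M ≤ k → g k x = 0 := fun k hk => hN x k (le_trans (le_max_left _ _) hk)
    have hy : ∀ k, M ≤ k → g k y = 0 := fun k hk => hN y k (le_trans (le_max_right _ _) hk)
    rw [key x (N x) M (hN x) hx, key y (N y) M (hN y) hy,
      key (x + y) (N (x + y)) M (hN _) (fun k hk => by rw [map_add, hx k hk, hy k hk, add_zero]),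
      ← Finset.sum_add_distrib]
    exact Finset.sum_congr rfl fun k _ => map_add _ _ _
  · intro c x
    rw [key (c • x) (N (c • x)) (N x) (hN _)
      (fun k hk => by rw [map_smul, hN x k hk, smul_zero]), RingHom.id_apply, Finset.smul_sum]
    exact Finset.sum_congr rfl fun k _ => map_smul _ _ _
  · intro x M h
    exact key x (N x) M (hN x) h

end THT

theorem t_THT : S_THT := by
  intro V _ _ S S' hS hS' hsurj hker
  obtain ⟨R, hR⟩ := S'.exists_rightInverse_of_surjective (LinearMap.range_eq_top.2 hsurj)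
  obtain ⟨π, hπ⟩ := (LinearMap.ker S').subtype.exists_leftInverse_of_injective
    (LinearMap.ker_eq_bot.2 (Submodule.injective_subtype _))
  have hR' : ∀ x, S' (R x) = x := fun x => by
    have := congrArg (fun f : V →ₗ[ℚ] V => f x) hR
    simpa using this
  set P : V →ₗ[ℚ] V := (LinearMap.ker S').subtype ∘ₗ π with hP
  have hP0 : ∀ x, S' (P x) = 0 := fun x => (π x).2
  have hP1 : ∀ x, S x = 0 → P x = x := by
    intro x hx
    have hx' : x ∈ LinearMap.ker S' := by rw [← hker]; exact hx
    have h1 := congrArg (fun f : LinearMap.ker S' →ₗ[ℚ] LinearMap.ker S' => f ⟨x, hx'⟩) hπ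
    have h2 : π x = ⟨x, hx'⟩ := by simpa using h1
    show ((π x : LinearMap.ker S') : V) = x
    rw [h2]
  have htail : ∀ x k, (S ^ k) x = 0 → ∀ n, k ≤ n → (S ^ n) x = 0 := by
    intro x k hk n hn
    obtain ⟨j, rfl⟩ := Nat.exists_eq_add_of_le hn
    rw [add_comm, pow_add, Module.End.mul_apply, hk, map_zero]
  obtain ⟨θ, hθ⟩ := THT.exists_sum V (fun k => (R ^ k) ∘ₗ P ∘ₗ (S ^ k)) (by
    intro x
    obtain ⟨N, hN⟩ := hS x
    refine ⟨N, fun k hk => ?_⟩
    show (R ^ k) (P ((S ^ k) x)) = 0
    rw [htail x N hN k hk, map_zero, map_zero])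
  have hθ' : ∀ x M, (S ^ M) x = 0 → θ x = ∑ k ∈ Finset.range M, (R ^ k) (P ((S ^ k) x)) := by
    intro x M hM
    exact hθ x M fun k hk => by
      show (R ^ k) (P ((S ^ k) x)) = 0
      rw [htail x M hM k hk, map_zero, map_zero]
  have hcomm : ∀ x, θ (S x) = S' (θ x) := by
    intro x
    obtain ⟨M, hM⟩ := hS x
    have hM1 : (S ^ (M + 1)) x = 0 := htail x M hM (M + 1) (Nat.le_succ M)
    have hM2 : (S ^ M) (S x) = 0 := by
      rw [← Module.End.mul_apply, ← pow_succ]; exact hM1
    rw [hθ' x (M + 1) hM1, hθ' (S x) M hM2, map_sum, Finset.sum_range_succ']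
    have h0 : S' ((R ^ 0) (P ((S ^ 0) x))) = 0 := by
      rw [pow_zero, Module.End.one_apply]
      exact hP0 _
    rw [h0, add_zero]
    refine Finset.sum_congr rfl fun k _ => ?_
    rw [pow_succ' R, Module.End.mul_apply, hR', pow_succ S, Module.End.mul_apply]
  have hpow : ∀ k x, θ ((S ^ k) x) = (S' ^ k) (θ x) := by
    intro k
    induction k with
    | zero => intro x; simp
    | succ k ih =>
      intro x
      rw [pow_succ' S, pow_succ' S', Module.End.mul_apply, Module.End.mul_apply, hcomm, ih]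
  refine ⟨θ, ?_, hcomm⟩
  rw [injective_iff_map_eq_zero]
  intro x hx
  by_contra hne
  classical
  have hex := hS x
  have h1 : Nat.find hex ≠ 0 := by
    intro h0
    have := Nat.find_spec hex
    rw [h0] at this
    exact hne (by simpa using this)
  obtain ⟨k, hk⟩ := Nat.exists_eq_succ_of_ne_zero h1
  have h2 : (S ^ k) x ≠ 0 := Nat.find_min hex (by omega)
  have h3 : S ((S ^ k) x) = 0 := by
    have := Nat.find_spec hex
    rw [hk, Nat.succ_eq_add_one, pow_succ', Module.End.mul_apply] at this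
    exact this
  have h4 : θ ((S ^ k) x) = (S ^ k) x := by
    rw [hθ' ((S ^ k) x) 1 (by rw [pow_one]; exact h3)]
    simp only [Finset.range_one, Finset.sum_singleton, pow_zero, Module.End.one_apply]
    exact hP1 _ h3
  rw [hpow, hx, map_zero] at h4
  exact h2 h4.symm

end Pool.Agent.K6.H9.RI
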