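import Pool.Agent.K6.H9.RI.Mod4
import Pool.Agent.K6.H9.RI.Maps
import Pool.Agent.K6.H9.RI.Prd
import Pool.Agent.K6.H9.RI.Abl
import Pool.Agent.K6.H9.RI.Ext
import Pool.Agent.K6.H9.RI.Rad
import Pool.Agent.K6.H9.RI.Grp
import Pool.Agent.K6.H9.RI.Sel
import Pool.Agent.K6.H9.RI.Crd
import Pool.Agent.K6.H9.RI.Rel
import Pool.Agent.K6.H9.RI.Div
import Pool.Agent.K6.H9.RI.Ctr
import Pool.Agent.K6.H9.RI.Tht
import Pool.Agent.K6.H9.RI.Fre
import Pool.Agent.K6.H9.RI.Lat

set_option autoImplicit false

namespace Pool.Agent.K6.H9.RI.MAIN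

open Pool.Agent.K6.H9.RI

variable {X : ∀ (G : Type) [Group G], Prop}

lemma of_inj (hX : IsHereditaryRadical X) {H K : Type} [Group H] [Group K] (f : H →* K)
    (hf : Function.Injective f) (h : X K) : X H :=
  hX.image _ _ (MonoidHom.ofInjective hf).symm.toMonoidHom (MonoidHom.ofInjective hf).symm.surjective
    (hX.subgroup K f.range h)

lemma of_le (hX : IsHereditaryRadical X) {G : Type} [Group G] {H K : Subgroup G} (hle : H ≤ K)
    (h : X K) : X H :=
  of_inj hX (Subgroup.inclusion hle) (Subgroup.inclusion_injective hle) h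

lemma zx (hX : IsHereditaryRadical X) {G : Type} [Group G]
    (htf : ∀ (x : G) (n : ℕ), 0 < n → x ^ n = 1 → x = 1) (h : X G) (t : G) (ht : t ≠ 1) :
    X (Multiplicative ℤ) := by
  refine of_inj hX (zpowersHom G t) ?_ h
  rw [injective_iff_map_eq_one]
  intro m hm
  rw [zpowersHom_apply] at hm
  by_contra hne
  have hne' : Multiplicative.toAdd m ≠ 0 := fun h0 => hne (by rw [← ofAdd_toAdd m, h0]; rfl)
  refine ht (htf t (Multiplicative.toAdd m).natAbs (Int.natAbs_pos.2 hne') ?_)
  rcases Int.natAbs_eq (Multiplicative.toAdd m) with h1 | h1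
  · rw [h1, zpow_natCast] at hm
    exact hm
  · rw [h1, zpow_neg, zpow_natCast, inv_eq_one] at hm
    exact hm

open scoped commutatorElement in
lemma ln {G : Type} [Group G] (hln : ∀ H : Subgroup G, H.FG → Group.IsNilpotent H)
    (g a : G) : ∃ k : ℕ, (fun x : G => g * x * g⁻¹ * x⁻¹)^[k] a = 1 := by
  classical
  let K : Subgroup G := Subgroup.closure {g, a}
  have hK : K.FG := ⟨{g, a}, by simp [K]⟩
  obtain ⟨n, hn⟩ := Subgroup.nilpotent_iff_lowerCentralSeries.1 (hln K hK)
  have hg : g ∈ K := Subgroup.subset_closure (by simp)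
  have ha : a ∈ K := Subgroup.subset_closure (by simp)
  have key : ∀ k : ℕ, ∃ y : K, y ∈ Subgroup.lowerCentralSeries (⊤ : Subgroup K) k ∧
      (y : G) = (fun x : G => g * x * g⁻¹ * x⁻¹)^[k] a := by
    intro k
    induction k with
    | zero => exact ⟨⟨a, ha⟩, Subgroup.mem_top _, rfl⟩
    | succ k ih =>
      obtain ⟨y, hy, hyk⟩ := ih
      refine ⟨⁅y, (⟨g, hg⟩ : K)⁆⁻¹, ?_, ?_⟩
      · rw [Subgroup.lowerCentralSeries_succ]
        exact inv_mem (Subgroup.commutator_mem_commutator hy (Subgroup.mem_top _))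
      · rw [Function.iterate_succ_apply', ← hyk, commutatorElement_inv, commutatorElement_def]
        rfl
  obtain ⟨y, hy, hyn⟩ := key n
  refine ⟨n, ?_⟩
  rw [hn, Subgroup.mem_bot] at hy
  rw [← hyn, hy]
  rfl

lemma core (hX : IsHereditaryRadical X) (hZ : X (Multiplicative ℤ)) (G : Type) [Group G]
    (htf : ∀ (x : G) (n : ℕ), 0 < n → x ^ n = 1 → x = 1)
    (hln : ∀ H : Subgroup G, H.FG → Group.IsNilpotent H) (C : Type) [CommGroup C] (j : C →* G)
    (hj : Function.Injective j) (hnorm : ∀ (x : G) (c : C), ∃ c', j c' = x * j c * x⁻¹)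
    (g : G) (n : ℕ) (hn : 0 < n) (h : X (j.range ⊔ Subgroup.zpowers (g ^ n) : Subgroup G)) :
    X (j.range ⊔ Subgroup.zpowers g : Subgroup G) := by
  choose f hf using hnorm
  let i : Multiplicative (Additive C) →* G :=
    { toFun := fun x => j (Additive.toMul (Multiplicative.toAdd x))
      map_one' := map_one j
      map_mul' := fun x y => map_mul j _ _ }
  have hi : Function.Injective i := fun x y hxy => hj hxy
  have hir : i.range = j.range := by
    ext x
    exact ⟨fun ⟨y, hy⟩ => ⟨_, hy⟩, fun ⟨y, hy⟩ => ⟨Multiplicative.ofAdd (Additive.ofMul y), hy⟩⟩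
  let σ : G → (Additive C ≃+ Additive C) := fun x =>
    { toFun := fun a => Additive.ofMul (f x (Additive.toMul a))
      invFun := fun a => Additive.ofMul (f x⁻¹ (Additive.toMul a))
      left_inv := fun a => by
        apply hj
        change j (f x⁻¹ (f x (Additive.toMul a))) = j (Additive.toMul a)
        rw [hf, hf]
        group
      right_inv := fun a => by
        apply hj
        change j (f x (f x⁻¹ (Additive.toMul a))) = j (Additive.toMul a)
        rw [hf, hf]
        group
      map_add' := fun a b => by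
        apply hj
        change j (f x (Additive.toMul a * Additive.toMul b)) =
          j (f x (Additive.toMul a) * f x (Additive.toMul b))
        rw [hf, map_mul, map_mul, hf, hf]
        group }
  have hσ : ∀ x (a : Additive C), i (Multiplicative.ofAdd (σ x a)) =
      x * i (Multiplicative.ofAdd a) * x⁻¹ := fun x a => hf x _
  have hG := fun x => t_GRP t_PRD X hX hZ G (Additive C) i hi x (σ x) (hσ x)
  rw [hir] at hG
  have hABL := t_ABL
  have hMOD := MOD.t_MOD t_INJ t_SUR t_PRD (t_EXT t_ABL) t_SEL t_CRD t_REL t_DIV t_CTR t_THT t_FRE t_LAT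
  refine (hG g).1 (hMOD X hX hZ (Additive C) ?_ (σ g) ?_ n hn (σ (g ^ n)) ?_ ((hG (g ^ n)).2 h))
  · intro a m hm ha
    apply hj
    change j (Additive.toMul a) = j 1
    rw [map_one]
    refine htf _ m hm ?_
    rw [← map_pow, ← map_one j]
    exact congrArg j ha
  · intro a
    obtain ⟨k, hk⟩ := ln hln g (j (Additive.toMul a))
    refine ⟨k, ?_⟩
    apply hj
    change j (Additive.toMul _) = j 1
    rw [map_one, ← hk]
    clear hk
    induction k generalizing a with
    | zero => rfl
    | succ k ih =>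
      rw [Function.iterate_succ_apply, Function.iterate_succ_apply, ih]
      congr 1
      change j (f g (Additive.toMul a) / Additive.toMul a) = _
      rw [div_eq_mul_inv, map_mul, map_inv, hf]
  · intro a
    apply hj
    change j (f (g ^ n) (Additive.toMul a)) = j (Additive.toMul ((⇑(σ g))^[n] a))
    rw [hf]
    clear hn h
    induction n generalizing a with
    | zero => simp
    | succ n ih =>
      rw [Function.iterate_succ_apply, ← ih]
      change _ = g ^ n * j (f g (Additive.toMul a)) * (g ^ n)⁻¹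
      rw [hf, pow_succ]
      group

/-- **The main theorem.** -/
theorem main (hX : IsHereditaryRadical X) (G : Type) [Group G]
    (htf : ∀ (x : G) (n : ℕ), 0 < n → x ^ n = 1 → x = 1)
    (hln : ∀ H : Subgroup G, H.FG → Group.IsNilpotent H) (A : Subgroup G) [hA : A.Normal]
    (hab : ∀ a ∈ A, ∀ b ∈ A, a * b = b * a)
    (hsub : ∀ x : G ⧸ A, (Subgroup.zpowers x).IsSubnormal) (g : G) (n : ℕ) (hn : 0 < n)
    (hg : g ^ n ∈ radical X G) : g ∈ radical X G := by
  classical
  by_cases ht : g ^ n = 1
  · rw [htf g n hn ht]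
    exact one_mem _
  obtain ⟨hRn, hRX, hRs⟩ := t_RAD X hX G
  have hZ : X (Multiplicative ℤ) :=
    zx hX (G := radical X G) (fun x m hm h => Subtype.ext (htf x m hm (congrArg Subtype.val h))) hRX
      ⟨g ^ n, hg⟩ (fun h => ht (congrArg Subtype.val h))
  letI cA : CommGroup A :=
    { (inferInstance : Group A) with
      mul_comm := fun a b => Subtype.ext (hab a a.2 b b.2) }
  have hAX : X A := t_ABL X hX hZ A
  have hAR : A ≤ radical X G := le_sSup ⟨hA, hAX⟩
  have h1 : X (A ⊔ Subgroup.zpowers (g ^ n) : Subgroup G) :=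
    of_le hX (sup_le hAR (Subgroup.zpowers_le.2 hg)) hRX
  have h2 : X (A ⊔ Subgroup.zpowers g : Subgroup G) := by
    have := core hX hZ G htf hln A A.subtype Subtype.val_injective
      (fun x c => ⟨⟨_, hA.conj_mem c c.2 x⟩, rfl⟩) g n hn (by rw [A.range_subtype]; exact h1)
    rwa [A.range_subtype] at this
  -- the subgroup is subnormal
  have h3 : (A ⊔ Subgroup.zpowers g : Subgroup G).IsSubnormal := by
    have := (hsub (QuotientGroup.mk g)).comap (QuotientGroup.mk' A)
    have e : (Subgroup.zpowers (QuotientGroup.mk g : G ⧸ A)).comap (QuotientGroup.mk' A) =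
        A ⊔ Subgroup.zpowers g := by
      have e1 : Subgroup.zpowers (QuotientGroup.mk g : G ⧸ A) =
          (Subgroup.zpowers g).map (QuotientGroup.mk' A) := by
        rw [MonoidHom.map_zpowers]
        rfl
      rw [e1, Subgroup.comap_map_eq, QuotientGroup.ker_mk', sup_comm]
    rwa [e] at this
  have hgH : g ∈ (A ⊔ Subgroup.zpowers g : Subgroup G) :=
    (le_sup_right : Subgroup.zpowers g ≤ _) (Subgroup.mem_zpowers g)
  refine (hRs _ h3 ⟨g, hgH⟩).1 ?_
  have h4 : (⊤ : Subgroup (A ⊔ Subgroup.zpowers g : Subgroup G)) ≤ radical X _ :=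
    le_sSup ⟨inferInstance, hX.subgroup _ _ h2⟩
  exact h4 (Subgroup.mem_top _)

end Pool.Agent.K6.H9.RI.MAIN
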