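import Pool.Agent.K6.H9.RI.Stm

set_option autoImplicit false

namespace Pool.Agent.K6.H9.RI.MOD

open Pool.Agent.K6.H9.RI

/-- locally nilpotent -/
def LN {C : Type} [AddCommGroup C] (S : C →+ C) : Prop := ∀ x, ∃ k : ℕ, (⇑S)^[k] x = 0

lemma iter_zero {C : Type} [AddCommGroup C] (S : C →+ C) (k : ℕ) : (⇑S)^[k] 0 = 0 :=
  iterate_map_zero S k

lemma uni_bij {C : Type} [AddCommGroup C] (S : C →+ C) (h : LN S) :
    Function.Bijective (AddMonoidHom.id C + S) := by
  constructor
  · rw [injective_iff_map_eq_zero]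
    intro x hx
    have hx' : S x = -x := by
      have : x + S x = 0 := hx
      exact (neg_eq_of_add_eq_zero_right this).symm
    have h1 : ∀ k : ℕ, (⇑S)^[k] x = 0 → x = 0 := by
      intro k
      induction k with
      | zero => intro h; simpa using h
      | succ k ih =>
        intro h
        rw [Function.iterate_succ_apply, hx', iterate_map_neg] at h
        exact ih (neg_eq_zero.1 h)
    obtain ⟨k, hk⟩ := h x
    exact h1 k hk
  · have h1 : ∀ k : ℕ, ∀ x, (⇑S)^[k] x = 0 → ∃ y, (AddMonoidHom.id C + S) y = x := by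
      intro k
      induction k with
      | zero => intro x h; exact ⟨0, by rw [map_zero]; exact (by simpa using h.symm)⟩
      | succ k ih =>
        intro x h
        rw [Function.iterate_succ_apply] at h
        obtain ⟨y, hy⟩ := ih _ h
        refine ⟨x - y, ?_⟩
        rw [map_sub, hy]
        change x + S x - S x = x
        abel
    intro x
    obtain ⟨k, hk⟩ := h x
    exact h1 k x hk

/-- the automorphism `1 + S` -/
noncomputable def uni {C : Type} [AddCommGroup C] (S : C →+ C) (h : LN S) : C ≃+ C :=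
  AddEquiv.ofBijective (AddMonoidHom.id C + S) (uni_bij S h)

lemma uni_apply {C : Type} [AddCommGroup C] (S : C →+ C) (h : LN S) (x : C) :
    uni S h x = x + S x := rfl

lemma uni_eq {C : Type} [AddCommGroup C] (S : C →+ C) (h : LN S) (σ : C ≃+ C)
    (hσ : ∀ x, σ x = x + S x) : σ = uni S h := by
  ext x
  rw [hσ, uni_apply]

variable {X : ∀ (G : Type) [Group G], Prop}

/-- The restriction of `S` to an invariant subgroup. -/
def rs {C : Type} [AddCommGroup C] (S : C →+ C) (B : AddSubgroup C) (h : ∀ x ∈ B, S x ∈ B) :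
    B →+ B where
  toFun x := ⟨S x, h x x.2⟩
  map_zero' := by ext; simp
  map_add' x y := by ext; simp

lemma rs_iter {C : Type} [AddCommGroup C] (S : C →+ C) (B : AddSubgroup C) (h : ∀ x ∈ B, S x ∈ B)
    (k : ℕ) (x : B) : (((⇑(rs S B h))^[k] x : B) : C) = (⇑S)^[k] x := by
  induction k generalizing x with
  | zero => rfl
  | succ k ih => rw [Function.iterate_succ_apply, Function.iterate_succ_apply, ih]; rfl

lemma rs_LN {C : Type} [AddCommGroup C] (S : C →+ C) (B : AddSubgroup C) (h : ∀ x ∈ B, S x ∈ B)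
    (hS : LN S) : LN (rs S B h) := by
  intro x
  obtain ⟨k, hk⟩ := hS x
  exact ⟨k, Subtype.ext (by rw [rs_iter, hk]; rfl)⟩

/-- The chain: from a subgroup containing `S ^ k A` to `A`. -/
lemma chain (hE : S_EXT) (hSu : S_SUR) (hX : IsHereditaryRadical X) (k : ℕ) :
    ∀ (A : Type) [AddCommGroup A] (S : A →+ A) (hS : LN S) (B : AddSubgroup A)
      (hB : ∀ x ∈ B, S x ∈ B), (∀ a, (⇑S)^[k] a ∈ B) →
      X (SD B (uni (rs S B hB) (rs_LN S B hB hS))) → X (SD A (uni S hS)) := by
  induction k with
  | zero =>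
    intro A _ S hS B hB hk hx
    refine hSu X hX _ _ _ _ B.subtype (fun a => ⟨⟨a, hk a⟩, rfl⟩) (fun a => ?_) hx
    rw [uni_apply, uni_apply, map_add]
    rfl
  | succ k ih =>
    intro A _ S hS B hB hk hx
    -- the subgroup `S A + B`
    have hA' : ∀ x ∈ S.range ⊔ B, S x ∈ S.range ⊔ B := fun x _ =>
      (le_sup_left : S.range ≤ _) ⟨x, rfl⟩
    refine hE X hX A (S.range ⊔ B : AddSubgroup A) (uni S hS)
      (uni (rs S _ hA') (rs_LN S _ hA' hS)) (S.range ⊔ B).subtype Subtype.val_injective
      (fun b => ?_) (fun a => ?_) ?_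
    · rw [uni_apply, uni_apply, map_add]
      rfl
    · refine ⟨⟨S a, (le_sup_left : S.range ≤ _) ⟨a, rfl⟩⟩, ?_⟩
      rw [uni_apply]
      change S a = a + S a - a
      abel
    · -- the subgroup `B` of `S A + B`
      have hB' : ∀ x ∈ B.addSubgroupOf (S.range ⊔ B), rs S _ hA' x ∈ B.addSubgroupOf (S.range ⊔ B) :=
        fun x hx => hB _ hx
      refine ih _ (rs S _ hA') (rs_LN S _ hA' hS) (B.addSubgroupOf (S.range ⊔ B)) hB' ?_ ?_
      · rintro ⟨a, ha⟩
        rw [AddSubgroup.mem_addSubgroupOf, rs_iter]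
        obtain ⟨_, ⟨y, rfl⟩, z, hz, rfl⟩ := AddSubgroup.mem_sup.1 ha
        change (⇑S)^[k] (S y + z) ∈ B
        rw [iterate_map_add]
        refine B.add_mem ?_ ?_
        · rw [← Function.iterate_succ_apply]
          exact hk y
        · clear hx
          induction k with
          | zero => exact hz
          | succ k ih' =>
            rw [Function.iterate_succ_apply']
            exact hB _ (by
              have : ∀ l : ℕ, (⇑S)^[l] z ∈ B := by
                intro l
                induction l with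
                | zero => exact hz
                | succ l ihl => rw [Function.iterate_succ_apply']; exact hB _ ihl
              exact this k)
      · refine hSu X hX _ _ _ _ ((AddSubgroup.inclusion (le_sup_right : B ≤ S.range ⊔ B)).codRestrict
          (B.addSubgroupOf (S.range ⊔ B)) (fun b => b.2)) ?_ (fun a => ?_) hx
        · rintro ⟨⟨b, hb⟩, hb'⟩
          exact ⟨⟨b, hb'⟩, rfl⟩
        · rw [uni_apply, uni_apply, map_add]
          rfl

end Pool.Agent.K6.H9.RI.MOD
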