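import Pool.Agent.K6.H9.RI.Mod

set_option autoImplicit false

namespace Pool.Agent.K6.H9.RI.MOD

open Pool.Agent.K6.H9.RI

variable {X : ∀ (G : Type) [Group G], Prop}

/-- Transfer along injective maps. -/
lemma inj (hI : S_INJ) (hX : IsHereditaryRadical X) {A B : Type} [AddCommGroup A] [AddCommGroup B]
    (S : A →+ A) (hS : LN S) (S' : B →+ B) (hS' : LN S') (f : A →+ B) (hf : Function.Injective f)
    (hfS : ∀ a, f (S a) = S' (f a)) (h : X (SD B (uni S' hS'))) : X (SD A (uni S hS)) :=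
  hI X hX _ _ _ _ f hf (fun a => by rw [uni_apply, uni_apply, map_add, hfS]) h

/-- Transfer along surjective maps. -/
lemma sur (hI : S_SUR) (hX : IsHereditaryRadical X) {A B : Type} [AddCommGroup A] [AddCommGroup B]
    (S : A →+ A) (hS : LN S) (S' : B →+ B) (hS' : LN S') (f : A →+ B) (hf : Function.Surjective f)
    (hfS : ∀ a, f (S a) = S' (f a)) (h : X (SD A (uni S hS))) : X (SD B (uni S' hS')) :=
  hI X hX _ _ _ _ f hf (fun a => by rw [uni_apply, uni_apply, map_add, hfS]) h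

/-- The setting: a torsion-free group in its rational hull. -/
structure Setting (A V : Type) [AddCommGroup A] [AddCommGroup V] [Module ℚ V] where
  i : A →+ V
  inj : Function.Injective i
  lat : ∀ x : V, ∃ N : ℕ, 0 < N ∧ ∃ a, i a = N • x
  S₀ : A →+ A
  T₀ : A →+ A
  T : V →ₗ[ℚ] V
  S : V →ₗ[ℚ] V
  hT : ∀ a, T (i a) = i (T₀ a)
  hS : ∀ a, S (i a) = i (S₀ a)
  nT : ∀ x, ∃ k : ℕ, (T ^ k) x = 0
  nS : ∀ x, ∃ k : ℕ, (S ^ k) x = 0
  ker : LinearMap.ker S = LinearMap.ker T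
  ran : ∀ m : ℕ, LinearMap.range (S ^ m) = LinearMap.range (T ^ m)

namespace Setting

variable {A V : Type} [AddCommGroup A] [AddCommGroup V] [Module ℚ V] (s : Setting A V)

lemma iterT (k : ℕ) (a : A) : (s.T ^ k) (s.i a) = s.i ((⇑s.T₀)^[k] a) := by
  induction k generalizing a with
  | zero => rfl
  | succ k ih => rw [pow_succ, Module.End.mul_apply, s.hT, ih, Function.iterate_succ_apply]

lemma iterS (k : ℕ) (a : A) : (s.S ^ k) (s.i a) = s.i ((⇑s.S₀)^[k] a) := by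
  induction k generalizing a with
  | zero => rfl
  | succ k ih => rw [pow_succ, Module.End.mul_apply, s.hS, ih, Function.iterate_succ_apply]

lemma LNT : LN s.T₀ := fun a => by
  obtain ⟨k, hk⟩ := s.nT (s.i a)
  exact ⟨k, s.inj (by rw [← iterT, hk, map_zero])⟩

lemma LNS : LN s.S₀ := fun a => by
  obtain ⟨k, hk⟩ := s.nS (s.i a)
  exact ⟨k, s.inj (by rw [← iterS, hk, map_zero])⟩

/-- the subgroup of the `a` with `i a` in `range (T ^ m)` -/
def B (m : ℕ) : AddSubgroup A := (LinearMap.range (s.T ^ m)).toAddSubgroup.comap s.i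

lemma mem_B (m : ℕ) (a : A) : a ∈ s.B m ↔ s.i a ∈ LinearMap.range (s.T ^ m) := Iff.rfl

lemma T_ran (m : ℕ) (x : V) (hx : x ∈ LinearMap.range (s.T ^ m)) :
    s.T x ∈ LinearMap.range (s.T ^ m) := by
  obtain ⟨y, rfl⟩ := hx
  exact ⟨s.T y, by rw [← Module.End.mul_apply, ← Module.End.mul_apply, ← pow_succ, ← pow_succ']⟩

lemma S_ran (m : ℕ) (x : V) (hx : x ∈ LinearMap.range (s.T ^ m)) :
    s.S x ∈ LinearMap.range (s.T ^ m) := by
  rw [← s.ran] at hx ⊢
  obtain ⟨y, rfl⟩ := hx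
  exact ⟨s.S y, by rw [← Module.End.mul_apply, ← Module.End.mul_apply, ← pow_succ, ← pow_succ']⟩

lemma hB (m : ℕ) : ∀ a ∈ s.B m, s.T₀ a ∈ s.B m := fun a ha => by
  rw [mem_B, ← s.hT]
  exact s.T_ran m _ ha

/-- The last step in both cases. -/
lemma fin_step (hE : S_EXT) (hSu : S_SUR) (hX : IsHereditaryRadical X) (m : ℕ)
    (h : X (SD (s.B m) (uni (rs s.T₀ (s.B m) (s.hB m)) (rs_LN s.T₀ _ (s.hB m) s.LNT)))) :
    X (SD A (uni s.T₀ s.LNT)) :=
  chain hE hSu hX m A s.T₀ s.LNT (s.B m) (s.hB m) (fun a => by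
    rw [mem_B, ← s.iterT]
    exact ⟨_, rfl⟩) h

end Setting

end Pool.Agent.K6.H9.RI.MOD
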