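import Pool.Agent.K6.H9.RI.Mod2

set_option autoImplicit false

namespace Pool.Agent.K6.H9.RI.MOD

open Pool.Agent.K6.H9.RI

variable {X : ∀ (G : Type) [Group G], Prop}

namespace Setting

variable {A V : Type} [AddCommGroup A] [AddCommGroup V] [Module ℚ V] (s : Setting A V)

/-- Transfer to groups inside of the lattice `A`. -/
lemma toLat (hI : S_INJ) (hX : IsHereditaryRadical X) {M : Type} [AddCommGroup M] (S' : M →+ M)
    (hS' : LN S') (f : M →+ V) (hf : Function.Injective f) (hfr : ∀ x, ∃ a, s.i a = f x)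
    (hfS : ∀ x, f (S' x) = s.S (f x)) (h : X (SD A (uni s.S₀ s.LNS))) : X (SD M (uni S' hS')) := by
  choose j hj using hfr
  refine MOD.inj hI hX S' hS' s.S₀ s.LNS (AddMonoidHom.mk' j fun x y => s.inj ?_) ?_ (fun x => s.inj ?_) h
  · rw [map_add, hj, hj, hj, map_add]
  · intro x y hxy
    apply hf
    rw [← hj, ← hj]
    exact congrArg s.i hxy
  · change s.i (j (S' x)) = s.i (s.S₀ (j x))
    rw [hj, hfS, ← s.hS, hj]

/-- **The case of infinite final rank.** -/
lemma case_inf (hI : S_INJ) (hSu : S_SUR) (hE : S_EXT) (hSel : S_SEL) (hFre : S_FRE)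
    (hX : IsHereditaryRadical X) (κ : Cardinal) (hκ : Cardinal.aleph0 ≤ κ) (m : ℕ)
    (hV : Cardinal.mk (LinearMap.range (s.T ^ m)) ≤ κ)
    (hK : ∀ k : ℕ, κ ≤ Module.rank ℚ (LinearMap.ker s.T ⊓ LinearMap.range (s.T ^ k) : Submodule ℚ V))
    (h : X (SD A (uni s.S₀ s.LNS))) : X (SD A (uni s.T₀ s.LNT)) := by
  classical
  let I : Type := κ.out
  have hI' : Cardinal.mk I = κ := Cardinal.mk_out κ
  have hinf : Infinite I := Cardinal.infinite_iff.2 (by rw [hI']; exact hκ)
  have hJ : Cardinal.mk (ℕ × I) = κ := by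
    rw [Cardinal.mk_prod, Cardinal.lift_uzero, Cardinal.lift_uzero, hI', Cardinal.mk_nat]
    exact Cardinal.aleph0_mul_eq hκ
  obtain ⟨b, hb, hind⟩ := hSel V (ℕ × I)
    (fun j => LinearMap.ker s.T ⊓ LinearMap.range (s.T ^ j.1)) (fun j => by rw [hJ]; exact hK j.1)
  have hx : ∀ j, ∃ x, (s.S ^ j.1) x = b j := fun j => by
    have := (hb j).2
    rw [← s.ran] at this
    exact this
  choose x hx using hx
  choose N hN a ha using fun j => s.lat (x j)
  have e1 : ∀ j, (s.S ^ j.1) (s.i (a j)) = (N j : ℚ) • b j := fun j => by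
    rw [ha, map_nsmul, hx, Nat.cast_smul_eq_nsmul]
  have hSb : ∀ j, s.S (b j) = 0 := fun j => by
    have := (hb j).1
    rw [← s.ker] at this
    exact this
  have hind' : LinearIndependent ℚ (fun j => (s.S ^ j.1) (s.i (a j))) := by
    have := hind.units_smul (fun j => Units.mk0 (N j : ℚ) (by exact_mod_cast (hN j).ne'))
    convert this using 1
    ext j
    rw [e1]
    rfl
  have h0 : ∀ j, (s.S ^ (j.1 + 1)) (s.i (a j)) = 0 := fun j => by
    rw [pow_succ', Module.End.mul_apply, e1, map_smul, hSb, smul_zero]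
  -- the enumeration
  have hBc : Cardinal.mk (s.B m) ≤ Cardinal.mk I := by
    rw [hI']
    refine le_trans (Cardinal.mk_le_of_injective
      (f := fun a : s.B m => (⟨s.i a, a.2⟩ : LinearMap.range (s.T ^ m))) ?_) hV
    intro a a' haa
    exact Subtype.ext (s.inj (congrArg Subtype.val haa))
  obtain ⟨emb⟩ := Cardinal.le_def _ _ |>.1 hBc
  let e : I → s.B m := Function.invFun emb
  have he : Function.Surjective e := Function.invFun_surjective emb.injective
  let R := rs s.T₀ (s.B m) (s.hB m)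
  have hR : LN R := rs_LN s.T₀ _ (s.hB m) s.LNT
  let y : ℕ × I → s.B m := fun j => if (⇑R)^[j.1 + 1] (e j.2) = 0 then e j.2 else 0
  have hy : ∀ j, (⇑R)^[j.1 + 1] (y j) = 0 := fun j => by
    by_cases hc : (⇑R)^[j.1 + 1] (e j.2) = 0
    · simp only [y, hc, if_true]
    · simp only [y, hc, if_false]
      exact iter_zero R _
  have hgen : ∀ z : s.B m, z ∈ AddSubgroup.closure {x | ∃ j k, x = (⇑R)^[k] (y j)} := fun z => by
    obtain ⟨i, rfl⟩ := he z
    obtain ⟨k, hk⟩ := hR (e i)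
    refine AddSubgroup.subset_closure ⟨(k, i), 0, ?_⟩
    have : (⇑R)^[k + 1] (e i) = 0 := by
      rw [Function.iterate_succ_apply', hk, map_zero]
    simp only [y, this, if_true, Function.iterate_zero, id]
  obtain ⟨L, g, hL, hLc, hg, hgS⟩ := hFre V s.S (ℕ × I) (fun j => j.1) (fun j => s.i (a j)) h0 hind'
    (s.B m) R y hy hgen
  have hSN : LN s.S.toAddMonoidHom := fun x => by
    obtain ⟨k, hk⟩ := s.nS x
    exact ⟨k, by rw [← hk, Module.End.pow_apply]; rfl⟩
  have hLN : LN (rs s.S.toAddMonoidHom L hL) := rs_LN _ _ hL hSN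
  have hLi : L ≤ s.i.range := by
    rw [hLc, AddSubgroup.closure_le]
    rintro _ ⟨j, k, rfl⟩
    exact ⟨_, (s.iterS k (a j)).symm⟩
  have h1 : X (SD L (uni (rs s.S.toAddMonoidHom L hL) hLN)) :=
    s.toLat hI hX _ hLN L.subtype Subtype.val_injective (fun x => hLi x.2) (fun x => rfl) h
  exact s.fin_step hE hSu hX m (MOD.sur hSu hX _ hLN R hR g hg (fun x => hgS x) h1)

end Setting

end Pool.Agent.K6.H9.RI.MOD
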