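import Pool.Agent.K6.H9.RI.Mod3

set_option autoImplicit false

namespace Pool.Agent.K6.H9.RI.MOD

open Pool.Agent.K6.H9.RI

variable {X : ∀ (G : Type) [Group G], Prop}

namespace Setting

variable {A V : Type} [AddCommGroup A] [AddCommGroup V] [Module ℚ V] (s : Setting A V)

lemma restrict_pow (F : V →ₗ[ℚ] V) (U : Submodule ℚ V) (h : ∀ x ∈ U, F x ∈ U) (k : ℕ) (x : U) :
    (((F.restrict h) ^ k) x : V) = (F ^ k) x := by
  induction k generalizing x with
  | zero => rfl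
  | succ k ih => rw [pow_succ, pow_succ, Module.End.mul_apply, Module.End.mul_apply, ih]; rfl

/-- **The case of finite final rank.** -/
lemma case_fin (hI : S_INJ) (hSu : S_SUR) (hP : S_PRD) (hE : S_EXT) (hDiv : S_DIV) (hCtr : S_CTR)
    (hTht : S_THT) (hX : IsHereditaryRadical X) (m : ℕ)
    (hV : Countable (LinearMap.range (s.T ^ m)))
    (hK : ∀ k : ℕ, m ≤ k → LinearMap.ker s.T ⊓ LinearMap.range (s.T ^ k) =
      LinearMap.ker s.T ⊓ LinearMap.range (s.T ^ m))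
    (h : X (SD A (uni s.S₀ s.LNS))) : X (SD A (uni s.T₀ s.LNT)) := by
  classical
  have hdiv := hDiv V s.T s.nT m hK
  let U : Submodule ℚ V := LinearMap.range (s.T ^ m)
  let T₁ : U →ₗ[ℚ] U := s.T.restrict (s.T_ran m)
  let S₁ : U →ₗ[ℚ] U := s.S.restrict (s.S_ran m)
  have nT₁ : ∀ x, ∃ k : ℕ, (T₁ ^ k) x = 0 := fun x => by
    obtain ⟨k, hk⟩ := s.nT x
    exact ⟨k, Subtype.ext (by rw [restrict_pow, hk]; rfl)⟩
  have nS₁ : ∀ x, ∃ k : ℕ, (S₁ ^ k) x = 0 := fun x => by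
    obtain ⟨k, hk⟩ := s.nS x
    exact ⟨k, Subtype.ext (by rw [restrict_pow, hk]; rfl)⟩
  have hsurj : Function.Surjective S₁ := by
    rintro ⟨x, hx⟩
    have hx' : x ∈ LinearMap.range (s.S ^ (m + 1)) := by
      rw [s.ran, hdiv]
      exact hx
    obtain ⟨y, rfl⟩ := hx'
    refine ⟨⟨(s.S ^ m) y, ?_⟩, Subtype.ext ?_⟩
    · change (s.S ^ m) y ∈ LinearMap.range (s.T ^ m)
      rw [← s.ran]
      exact ⟨y, rfl⟩
    · change s.S ((s.S ^ m) y) = (s.S ^ (m + 1)) y
      rw [pow_succ', Module.End.mul_apply]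
  have hker : LinearMap.ker T₁ = LinearMap.ker S₁ := by
    ext x
    rw [LinearMap.mem_ker, LinearMap.mem_ker]
    have e1 : T₁ x = 0 ↔ s.T x = 0 := by rw [← Subtype.coe_inj]; rfl
    have e2 : S₁ x = 0 ↔ s.S x = 0 := by rw [← Subtype.coe_inj]; rfl
    rw [e1, e2, ← LinearMap.mem_ker, ← LinearMap.mem_ker, s.ker]
  -- the lattice
  let L : AddSubgroup U := s.i.range.comap U.subtype.toAddMonoidHom
  have hL : ∀ x ∈ L, S₁ x ∈ L := by
    rintro x ⟨a, ha⟩
    exact ⟨s.S₀ a, by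
      have ha' : s.i a = (x : V) := ha
      rw [← s.hS, ha']
      rfl⟩
  have hLat : ∀ x : U, ∃ N : ℕ, 0 < N ∧ N • x ∈ L := fun x => by
    obtain ⟨N, hN, a, ha⟩ := s.lat x
    exact ⟨N, hN, a, ha⟩
  obtain ⟨c, hc1, hc2⟩ := hCtr U S₁ nS₁ hsurj L hL hLat
  have hS₁N : LN S₁.toAddMonoidHom := fun x => by
    obtain ⟨k, hk⟩ := nS₁ x
    exact ⟨k, by rw [← hk, Module.End.pow_apply]; rfl⟩
  have hT₁N : LN T₁.toAddMonoidHom := fun x => by
    obtain ⟨k, hk⟩ := nT₁ x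
    exact ⟨k, by rw [← hk, Module.End.pow_apply]; rfl⟩
  have hLN : LN (rs S₁.toAddMonoidHom L hL) := rs_LN _ _ hL hS₁N
  have h1 : X (SD L (uni (rs S₁.toAddMonoidHom L hL) hLN)) :=
    s.toLat hI hX _ hLN (U.subtype.toAddMonoidHom.comp L.subtype)
      (Subtype.val_injective.comp Subtype.val_injective) (fun x => x.2) (fun x => rfl) h
  -- `L × L` maps onto `U`
  have h2 : X (SD U (uni S₁.toAddMonoidHom hS₁N)) := by
    refine hSu X hX _ _ _ _ (AddMonoidHom.coprod L.subtype (c.toAddMonoidHom.comp L.subtype))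
      ?_ ?_ ((hP X hX).2 L L _ _ h1 h1)
    · intro v
      obtain ⟨a, ha, b, hb, rfl⟩ := hc2 v
      exact ⟨(⟨a, ha⟩, ⟨b, hb⟩), rfl⟩
    · rintro ⟨a, b⟩
      rw [uni_apply]
      change ((uni (rs S₁.toAddMonoidHom L hL) hLN a : L) : U) +
        c ((uni (rs S₁.toAddMonoidHom L hL) hLN b : L) : U) =
          ((a : U) + c b) + S₁ ((a : U) + c b)
      rw [uni_apply, uni_apply, map_add S₁, ← hc1]
      change ((a : U) + S₁ a) + c ((b : U) + S₁ b) = _
      rw [map_add c]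
      abel
  -- the isomorphic action
  obtain ⟨θ, hθ1, hθ2⟩ := hTht U T₁ S₁ nT₁ nS₁ hsurj hker
  have h3 : X (SD U (uni T₁.toAddMonoidHom hT₁N)) :=
    MOD.inj hI hX _ hT₁N _ hS₁N θ.toAddMonoidHom hθ1 hθ2 h2
  refine s.fin_step hE hSu hX m (MOD.inj hI hX _ _ _ hT₁N
    (AddMonoidHom.mk' (fun a : s.B m => (⟨s.i a, a.2⟩ : U)) fun a b => Subtype.ext ?_) ?_
    (fun a => Subtype.ext ?_) h3)
  · exact map_add s.i _ _
  · intro a b hab
    exact Subtype.ext (s.inj (congrArg Subtype.val hab))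
  · exact (s.hT a).symm

end Setting

lemma rank_lemma {V : Type} [AddCommGroup V] [Module ℚ V] (K : ℕ → Submodule ℚ V)
    (hK : ∀ m k, m ≤ k → K k ≤ K m) :
    ∃ m, (∀ k, Module.rank ℚ (K m) ≤ Module.rank ℚ (K k)) ∧
      (Module.rank ℚ (K m) < Cardinal.aleph0 → ∀ k, m ≤ k → K k = K m) := by
  obtain ⟨m, hm⟩ := (inferInstance : WellFoundedLT Cardinal.{0}).wf.has_min
    (Set.range fun m => Module.rank ℚ (K m)) ⟨_, 0, rfl⟩
  obtain ⟨⟨m, rfl⟩, hm⟩ := hm
  refine ⟨m, fun k => not_lt.1 (hm _ ⟨k, rfl⟩), fun hfin k hk => ?_⟩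
  have : FiniteDimensional ℚ (K m) := Module.rank_lt_aleph0_iff.1 hfin
  refine Submodule.eq_of_le_of_finrank_le (hK m k hk) ?_
  have h1 : Module.rank ℚ (K m) ≤ Module.rank ℚ (K k) := not_lt.1 (hm _ ⟨k, rfl⟩)
  have : FiniteDimensional ℚ (K k) := Submodule.finiteDimensional_of_le (hK m k hk)
  exact Cardinal.toNat_le_toNat h1 (Module.rank_lt_aleph0_iff.2 inferInstance)

/-- **The main theorem on modules.** -/
theorem t_MOD (hI : S_INJ) (hSu : S_SUR) (hP : S_PRD) (hE : S_EXT) (hSel : S_SEL) (hCrd : S_CRD)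
    (hRel : S_REL) (hDiv : S_DIV) (hCtr : S_CTR) (hTht : S_THT) (hFre : S_FRE) (hLat : S_LAT) :
    S_MOD := by
  intro X hX _ A _ htf σ hσ n hn τ hτ hXτ
  obtain ⟨V, _, _, i, hi, hlat, hlift⟩ := hLat A htf
  let T₀ : A →+ A := σ.toAddMonoidHom - AddMonoidHom.id A
  obtain ⟨T, hT⟩ := hlift T₀
  have hσT : ∀ a, σ a = a + T₀ a := fun a => by
    change σ a = a + (σ a - a)
    abel
  have iter : ∀ (k : ℕ) (a : A), (T ^ k) (i a) = i ((⇑T₀)^[k] a) := fun k => by
    induction k with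
    | zero => intro a; rfl
    | succ k ih => intro a; rw [pow_succ, Module.End.mul_apply, hT, ih, Function.iterate_succ_apply]
  have nT : ∀ x, ∃ k : ℕ, (T ^ k) x = 0 := fun x => by
    obtain ⟨N, hN, a, ha⟩ := hlat x
    obtain ⟨k, hk⟩ := hσ a
    refine ⟨k, ?_⟩
    have h1 : (N : ℚ) • (T ^ k) x = 0 := by
      rw [Nat.cast_smul_eq_nsmul, ← map_nsmul, ← ha, iter]
      change i ((fun x => σ x - x)^[k] a) = 0
      rw [hk, map_zero]
    exact (smul_eq_zero.1 h1).resolve_left (by exact_mod_cast hN.ne')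
  obtain ⟨nS, hker, hran⟩ := hRel V T nT n hn
  let S₀ : A →+ A := τ.toAddMonoidHom - AddMonoidHom.id A
  have hτS : ∀ a, τ a = a + S₀ a := fun a => by
    change τ a = a + (τ a - a)
    abel
  have hpow : ∀ (k : ℕ) (a : A), ((1 + T) ^ k) (i a) = i ((⇑σ)^[k] a) := fun k => by
    induction k with
    | zero => intro a; rfl
    | succ k ih =>
      intro a
      rw [pow_succ, Module.End.mul_apply, LinearMap.add_apply, Module.End.one_apply, hT, ← map_add,
        ← hσT, ih, Function.iterate_succ_apply]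
  let s : Setting A V :=
    { i := i
      inj := hi
      lat := hlat
      S₀ := S₀
      T₀ := T₀
      T := T
      S := (1 + T) ^ n - 1
      hT := hT
      hS := fun a => by
        rw [LinearMap.sub_apply, hpow, Module.End.one_apply, ← hτ]
        exact (map_sub i _ _).symm
      nT := nT
      nS := nS
      ker := hker
      ran := hran }
  have e1 : σ = uni s.T₀ s.LNT := uni_eq _ _ σ hσT
  have e2 : τ = uni s.S₀ s.LNS := uni_eq _ _ τ hτS
  rw [e1]
  rw [e2] at hXτ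
  obtain ⟨m, hm1, hm2⟩ := rank_lemma (fun k => LinearMap.ker s.T ⊓ LinearMap.range (s.T ^ k))
    (fun m k hmk => inf_le_inf_left _ (by
      obtain ⟨d, rfl⟩ := Nat.exists_eq_add_of_le hmk
      rintro _ ⟨y, rfl⟩
      exact ⟨(s.T ^ d) y, by rw [← Module.End.mul_apply, ← pow_add]⟩))
  -- the restricted operator
  let U : Submodule ℚ V := LinearMap.range (s.T ^ m)
  let T₁ : U →ₗ[ℚ] U := s.T.restrict (s.T_ran m)
  have nT₁ : ∀ x, ∃ k : ℕ, (T₁ ^ k) x = 0 := fun x => by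
    obtain ⟨k, hk⟩ := s.nT x
    exact ⟨k, Subtype.ext (by rw [Setting.restrict_pow, hk]; rfl)⟩
  let W : Submodule ℚ V := LinearMap.ker s.T ⊓ LinearMap.range (s.T ^ m)
  have hinjW : Cardinal.mk (LinearMap.ker T₁) ≤ Cardinal.mk W := by
    refine Cardinal.mk_le_of_injective (f := fun x : LinearMap.ker T₁ => (⟨x.1.1, ?_, x.1.2⟩ : W)) ?_
    · have := x.2
      rw [LinearMap.mem_ker] at this
      exact congrArg Subtype.val this
    · intro x y hxy
      exact Subtype.ext (Subtype.ext (congrArg (fun w : W => (w : V)) hxy))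
  rcases lt_or_ge (Module.rank ℚ W) Cardinal.aleph0 with hfin | hinf
  · have : FiniteDimensional ℚ W := Module.rank_lt_aleph0_iff.1 hfin
    have hWc : Countable W := Finsupp.Countable.of_moduleFinite (R := ℚ)
    have hUc : Cardinal.mk U ≤ Cardinal.aleph0 :=
      hCrd U T₁ nT₁ _ le_rfl (hinjW.trans (Cardinal.mk_le_aleph0_iff.2 hWc))
    exact s.case_fin hI hSu hP hE hDiv hCtr hTht hX m (Cardinal.mk_le_aleph0_iff.1 hUc) (hm2 hfin)
      hXτ
  · have hWc : Cardinal.mk W ≤ Module.rank ℚ W := by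
      let b := Module.Free.chooseBasis ℚ W
      have hb : Cardinal.mk (Module.Free.ChooseBasisIndex ℚ W) = Module.rank ℚ W :=
        b.mk_eq_rank''
      have : Infinite (Module.Free.ChooseBasisIndex ℚ W) := Cardinal.infinite_iff.2 (by rw [hb]; exact hinf)
      rw [Cardinal.mk_congr b.repr.toEquiv, Cardinal.mk_finsupp_of_infinite, hb]
      simp only [Cardinal.mkRat, max_le_iff, le_refl, true_and]
      exact hinf
    exact s.case_inf hI hSu hE hSel hFre hX (Module.rank ℚ W) hinf m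
      (hCrd U T₁ nT₁ _ hinf (hinjW.trans hWc)) hm1 hXτ

end Pool.Agent.K6.H9.RI.MOD
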