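import Mathlib

/-!
# Hereditary radicals in torsion-free locally nilpotent groups: definitions and statements of pieces

Aim: if `X` is a hereditary radical and `G` is a torsion-free locally nilpotent group with an abelian
normal subgroup `A` such that `G / A` is a Baer group, then the radical `X(G)` is isolated in `G`.
-/

set_option autoImplicit false

namespace Pool.Agent.K6.H9.RI

/-- `X` is a hereditary radical: closed under homomorphic images, subgroups, and every group generated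
by its normal `X`-subgroups is in `X`. -/
structure IsHereditaryRadical (X : ∀ (G : Type) [Group G], Prop) : Prop where
  image : ∀ (G H : Type) [Group G] [Group H] (f : G →* H), Function.Surjective f → X G → X H
  subgroup : ∀ (G : Type) [Group G] (H : Subgroup G), X G → X H
  join : ∀ (G : Type) [Group G],
    (∀ K : Subgroup G, (∀ N : Subgroup G, N.Normal → X N → N ≤ K) → K = ⊤) → X G

/-- The radical `X(G)`: the subgroup generated by all normal `X`-subgroups. -/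
def radical (X : ∀ (G : Type) [Group G], Prop) (G : Type) [Group G] : Subgroup G :=
  sSup {N : Subgroup G | N.Normal ∧ X N}

/-- The action of `ℤ` on `A` by the powers of `σ`. -/
def act {A : Type} [AddCommGroup A] (σ : A ≃+ A) : Multiplicative ℤ →* MulAut (Multiplicative A) :=
  zpowersHom _ (AddEquiv.toMultiplicative σ)

/-- The semidirect product of `A` with the infinite cyclic group acting by `σ`. -/
abbrev SD (A : Type) [AddCommGroup A] (σ : A ≃+ A) : Type :=
  Multiplicative A ⋊[act σ] Multiplicative ℤ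

/-- **Piece MAPS.** -/
def S_INJ : Prop := ∀ (X : ∀ (G : Type) [Group G], Prop), IsHereditaryRadical X →
  ∀ (A B : Type) [AddCommGroup A] [AddCommGroup B] (σ : A ≃+ A) (τ : B ≃+ B) (f : A →+ B),
    Function.Injective f → (∀ a, f (σ a) = τ (f a)) → X (SD B τ) → X (SD A σ)

/-- **Piece MAPS.** -/
def S_SUR : Prop := ∀ (X : ∀ (G : Type) [Group G], Prop), IsHereditaryRadical X →
  ∀ (A B : Type) [AddCommGroup A] [AddCommGroup B] (σ : A ≃+ A) (τ : B ≃+ B) (f : A →+ B),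
    Function.Surjective f → (∀ a, f (σ a) = τ (f a)) → X (SD A σ) → X (SD B τ)

/-- **Piece PRD.** -/
def S_PRD : Prop := ∀ (X : ∀ (G : Type) [Group G], Prop), IsHereditaryRadical X →
  (∀ (G H : Type) [Group G] [Group H], X G → X H → X (G × H)) ∧
  ∀ (A B : Type) [AddCommGroup A] [AddCommGroup B] (σ : A ≃+ A) (τ : B ≃+ B),
    X (SD A σ) → X (SD B τ) → X (SD (A × B) (AddEquiv.prodCongr σ τ))

/-- **Piece ABL.** All abelian groups belong to `X` if the infinite cyclic group does. -/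
def S_ABL : Prop := ∀ (X : ∀ (G : Type) [Group G], Prop), IsHereditaryRadical X →
  X (Multiplicative ℤ) → ∀ (G : Type) [CommGroup G], X G

/-- **Piece EXT.** `B` is (isomorphic to) a subgroup of `A` containing `(σ - 1) A`. -/
def S_EXT : Prop := ∀ (X : ∀ (G : Type) [Group G], Prop), IsHereditaryRadical X →
  ∀ (A B : Type) [AddCommGroup A] [AddCommGroup B] (σ : A ≃+ A) (τ : B ≃+ B) (f : B →+ A),
    Function.Injective f → (∀ b, f (τ b) = σ (f b)) → (∀ a, ∃ b, f b = σ a - a) →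
    X (SD B τ) → X (SD A σ)

/-- **Piece RAD.** The radical belongs to `X`, and the radical of a subnormal subgroup. -/
def S_RAD : Prop := ∀ (X : ∀ (G : Type) [Group G], Prop), IsHereditaryRadical X →
  ∀ (G : Type) [Group G], (radical X G).Normal ∧ X (radical X G) ∧
    ∀ H : Subgroup G, H.IsSubnormal → ∀ h : H, h ∈ radical X H ↔ (h : G) ∈ radical X G

/-- **Piece GRP.** Comparison of `A ⟨g⟩` with the semidirect product. -/
def S_GRP : Prop := ∀ (X : ∀ (G : Type) [Group G], Prop), IsHereditaryRadical X →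
  X (Multiplicative ℤ) → ∀ (G : Type) [Group G] (A : Type) [AddCommGroup A] (i : Multiplicative A →* G),
    Function.Injective i → ∀ (g : G) (σ : A ≃+ A),
      (∀ a : A, i (Multiplicative.ofAdd (σ a)) = g * i (Multiplicative.ofAdd a) * g⁻¹) →
      (X (SD A σ) ↔ X (i.range ⊔ Subgroup.zpowers g : Subgroup G))

/-- **Piece SEL** (linear algebra). -/
def S_SEL : Prop := ∀ (V : Type) [AddCommGroup V] [Module ℚ V] (J : Type) [Infinite J]
  (W : J → Submodule ℚ V), (∀ j, Cardinal.mk J ≤ Module.rank ℚ (W j)) →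
  ∃ b : J → V, (∀ j, b j ∈ W j) ∧ LinearIndependent ℚ b

/-- **Piece CRD** (linear algebra). -/
def S_CRD : Prop := ∀ (V : Type) [AddCommGroup V] [Module ℚ V] (S : V →ₗ[ℚ] V),
  (∀ x, ∃ k : ℕ, (S ^ k) x = 0) → ∀ κ : Cardinal, Cardinal.aleph0 ≤ κ →
    Cardinal.mk (LinearMap.ker S) ≤ κ → Cardinal.mk V ≤ κ

/-- **Piece REL** (linear algebra). -/
def S_REL : Prop := ∀ (V : Type) [AddCommGroup V] [Module ℚ V] (T : V →ₗ[ℚ] V),
  (∀ x, ∃ k : ℕ, (T ^ k) x = 0) → ∀ n : ℕ, 0 < n →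
    (∀ x, ∃ k : ℕ, (((1 + T) ^ n - 1) ^ k) x = 0) ∧
    LinearMap.ker ((1 + T) ^ n - 1) = LinearMap.ker T ∧
    ∀ m : ℕ, LinearMap.range (((1 + T) ^ n - 1) ^ m) = LinearMap.range (T ^ m)

/-- **Piece DIV** (linear algebra). -/
def S_DIV : Prop := ∀ (V : Type) [AddCommGroup V] [Module ℚ V] (S : V →ₗ[ℚ] V),
  (∀ x, ∃ k : ℕ, (S ^ k) x = 0) → ∀ m₀ : ℕ,
    (∀ m, m₀ ≤ m → LinearMap.ker S ⊓ LinearMap.range (S ^ m) =
      LinearMap.ker S ⊓ LinearMap.range (S ^ m₀)) →
    LinearMap.range (S ^ (m₀ + 1)) = LinearMap.range (S ^ m₀)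

/-- **Piece CTR** (the sum of two isomorphic lattices is everything). -/
def S_CTR : Prop := ∀ (V : Type) [AddCommGroup V] [Module ℚ V] [Countable V] (S : V →ₗ[ℚ] V),
  (∀ x, ∃ k : ℕ, (S ^ k) x = 0) → Function.Surjective S → ∀ L : AddSubgroup V,
    (∀ x ∈ L, S x ∈ L) → (∀ x : V, ∃ N : ℕ, 0 < N ∧ N • x ∈ L) →
    ∃ c : V →ₗ[ℚ] V, (∀ x, c (S x) = S (c x)) ∧ ∀ v, ∃ a ∈ L, ∃ b ∈ L, v = a + c b

/-- **Piece THT.** -/
def S_THT : Prop := ∀ (V : Type) [AddCommGroup V] [Module ℚ V] (S S' : V →ₗ[ℚ] V),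
  (∀ x, ∃ k : ℕ, (S ^ k) x = 0) → (∀ x, ∃ k : ℕ, (S' ^ k) x = 0) → Function.Surjective S' →
  LinearMap.ker S = LinearMap.ker S' →
  ∃ θ : V →ₗ[ℚ] V, Function.Injective θ ∧ ∀ x, θ (S x) = S' (θ x)

/-- **Piece FRE.** A group with independent elements `a j` of `S'`-order exactly `m j + 1` maps onto
every group generated by elements `y j` with `S ^ (m j + 1) (y j) = 0`. -/
def S_FRE : Prop := ∀ (V : Type) [AddCommGroup V] [Module ℚ V] (S' : V →ₗ[ℚ] V) (J : Type) (m : J → ℕ)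
  (a : J → V), (∀ j, (S' ^ (m j + 1)) (a j) = 0) →
  LinearIndependent ℚ (fun j => (S' ^ (m j)) (a j)) →
  ∀ (C : Type) [AddCommGroup C] (S : C →+ C) (y : J → C), (∀ j, (⇑S)^[m j + 1] (y j) = 0) →
  (∀ z : C, z ∈ AddSubgroup.closure {x | ∃ j k, x = (⇑S)^[k] (y j)}) →
  ∃ (L : AddSubgroup V) (g : L →+ C) (hL : ∀ x ∈ L, S' x ∈ L),
    L = AddSubgroup.closure {x | ∃ j k, x = (S' ^ k) (a j)} ∧ Function.Surjective g ∧
    ∀ x : L, g ⟨S' x, hL x x.2⟩ = S (g x)

/-- **Piece LAT.** The rational hull of a torsion-free abelian group. -/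
def S_LAT : Prop := ∀ (A : Type) [AddCommGroup A], (∀ (a : A) (n : ℕ), 0 < n → n • a = 0 → a = 0) →
  ∃ (V : Type) (_ : AddCommGroup V) (_ : Module ℚ V) (i : A →+ V), Function.Injective i ∧
    (∀ x : V, ∃ N : ℕ, 0 < N ∧ ∃ a, i a = N • x) ∧
    ∀ f : A →+ A, ∃ F : V →ₗ[ℚ] V, ∀ a, F (i a) = i (f a)

/-- **Main statement on modules** (assembly). -/
def S_MOD : Prop := ∀ (X : ∀ (G : Type) [Group G], Prop), IsHereditaryRadical X →
  X (Multiplicative ℤ) → ∀ (A : Type) [AddCommGroup A],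
  (∀ (a : A) (n : ℕ), 0 < n → n • a = 0 → a = 0) → ∀ σ : A ≃+ A,
  (∀ a, ∃ k : ℕ, (fun x => σ x - x)^[k] a = 0) → ∀ n : ℕ, 0 < n → ∀ τ : A ≃+ A,
  (∀ a, τ a = (⇑σ)^[n] a) → X (SD A τ) → X (SD A σ)

end Pool.Agent.K6.H9.RI
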